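import Pool.Agent.MotE.Loc2
import Pool.Agent.Mot84.Sub

/-!
# The subcategory generated by a class of objects (MP_6c4da4_ag, by helper7)
-/

set_option autoImplicit false

open CategoryTheory MonoidalCategory BraidedCategory Limits ObjectProperty ZeroObject

universe v u

namespace MotE

open Mot

noncomputable section

set_option linter.unusedSectionVars false

variable {C : Type u} [Category.{v} C] [Preadditive C] [Linear ℚ C] [MonoidalCategory C]
  [SymmetricCategory C] [MonoidalPreadditive C] [MonoidalLinear ℚ C] [RightRigidCategory C]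

/-- The objects generated by the objects in `S`, under tensor products, duals, direct sums and
direct summands. -/
inductive GenBy (S : C → Prop) : C → Prop
  | of (X : C) : S X → GenBy S X
  | unit : GenBy S (𝟙_ C)
  | tensor (X Y : C) : GenBy S X → GenBy S Y → GenBy S (X ⊗ Y)
  | dual (X : C) : GenBy S X → GenBy S Xᘁ
  | sum (X Y Z : C) (i : X ⟶ Z) (p : Z ⟶ X) (j : Y ⟶ Z) (q : Z ⟶ Y) : i ≫ p = 𝟙 X →
      j ≫ q = 𝟙 Y → p ≫ i + q ≫ j = 𝟙 Z → GenBy S X → GenBy S Y → GenBy S Z
  | summand (X Y : C) (i : Y ⟶ X) (p : X ⟶ Y) : i ≫ p = 𝟙 Y → GenBy S X → GenBy S Y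

theorem GenBy.power {S : C → Prop} {X : C} (h : GenBy S X) (k : ℕ) : GenBy S (T X k) := by
  induction k with
  | zero => exact GenBy.unit
  | succ k ih => exact GenBy.tensor _ _ ih h

/-- The second alternative: one of the objects in `S` does not satisfy Tate's formula, and the
objects generated by `S` violate it by an arbitrarily large factor. -/
def Big (W : MotP.Frobenius C) (S : C → Prop) : Prop :=
  (∃ X, S X ∧ ¬ Mot84.TateSquare W X) ∧ ∀ n : ℕ, ∃ M : C, GenBy S M ∧
    (∀ e : M ⟶ M, e ≫ e = e → e = 0 ∨ e = 𝟙 M) ∧ n ≤ (W.even M).count 1 ∧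
    (∀ z : ℂ, z ≠ 1 → (W.even M).count z = (W.odd M).count z) ∧
    ∀ N : Submodule ℚ (M ⟶ M), (∀ f : M ⟶ M, MotP.NumTrivial f → f ∈ N) →
      Module.rank ℚ ((M ⟶ M) ⧸ N) ≤ ((W.even M).count 1 : ℕ)

end

section abelian

variable {C : Type u} [Category.{v} C] [Abelian C] [Linear ℚ C] [MonoidalCategory C]
  [SymmetricCategory C] [MonoidalPreadditive C] [MonoidalLinear ℚ C] [RightRigidCategory C]

theorem gen84 (W : MotP.Frobenius C) {S : C → Prop} (hS : ∀ X, S X → Mot84.TateSquare W X) {X : C}
    (h : GenBy S X) : Mot84.Generated W X := by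
  induction h with
  | of X h => exact Mot84.Generated.of X (hS X h)
  | unit => exact Mot84.Generated.unit
  | tensor X Y _ _ hX hY => exact Mot84.Generated.tensor X Y hX hY
  | dual X _ hX => exact Mot84.Generated.dual X hX
  | sum X Y Z i p j q h1 h2 h3 _ _ hX hY =>
    exact Mot84.Generated.sum X Y Z i p j q h1 h2 h3 hX hY
  | summand X Y i p h _ hX => exact Mot84.Generated.summand X Y i p h hX

theorem abs_dich (W : MotP.Frobenius C) (S : C → Prop) :
    (∀ (X Y : C) (f : X ⟶ Y), GenBy S X → GenBy S Y → MotP.NumTrivial f → f = 0) ∨ Big W S := by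
  by_cases h : ∀ (X Y : C) (f : X ⟶ Y), GenBy S X → GenBy S Y → MotP.NumTrivial f → f = 0
  · exact Or.inl h
  · right
    push Not at h
    obtain ⟨X, Y, f, hX, hY, hf, hf0⟩ := h
    refine ⟨?_, ?_⟩
    · by_contra hc
      push Not at hc
      exact hf0 (Mot84.zero_of_abelian W (gen84 W hc hX) (gen84 W hc hY) f hf)
    · intro n
      obtain ⟨M, k, -, ⟨i, p, hip⟩, hI, hn, hz, hr⟩ := W.toMot.big_summand f hf hf0 n
      refine ⟨M, GenBy.summand _ _ i p hip ((hY.tensor _ _ hX.dual).power k), hI, ?_, ?_, ?_⟩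
      · exact hn.le
      · intro z hz1
        have h3 : ((W.even M).count z : ℤ) - (W.odd M).count z = 0 := hz z hz1
        omega
      · intro N hN
        exact hr N hN

end abelian

end MotE
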