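import Pool.Agent.MotE.Abs
import Pool.Agent.CHS.RatNum

/-!
# The dichotomy for the category of Chow motives (MP_6c4da4_ag, by helper7)
-/

set_option autoImplicit false

open CategoryTheory MonoidalCategory CartesianMonoidalCategory Limits

universe v u w x

namespace CHM

variable {V : Type u} [Category.{v} V] [CartesianMonoidalCategory V]

namespace Cohomology

variable {T : ChowTheory.{v, u, w} V} {R : FrobeniusMaps T} (K : Cohomology.{v, u, w, x} T R)

theorem dichotomy (hA : MotP.IsAbelian (Mot T)) :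
    (∀ (M N : Mot T) (f : M ⟶ N), MotP.NumTrivial f → f = 0) ∨
    ∀ n : ℕ, ∃ M : Mot T, n ≤ K.multM M 1 ∧ (∀ z : ℂ, z ≠ 1 → K.multM M z = 0) ∧
      Module.rank ℚ ((M ⟶ M) ⧸ Mot.numHom M M) = 1 := by
  rcases MotE.dichotomy K.frobenius hA with h1 | h1
  · exact Or.inl h1
  · right
    intro n
    obtain ⟨M, hn, hz, h0, hr⟩ := h1 n
    refine ⟨M, ?_, ?_, ?_⟩
    · rw [K.multM_add]
      omega
    · intro z hz1
      rw [K.multM_add]
      have h2 := hz z hz1
      by_cases h3 : z ∈ K.frobenius.even M
      · have h4 : (K.frobenius.odd M).count z = 0 :=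
          Multiset.count_eq_zero.2 (fun h4 => K.even_odd_disjoint h3 h4)
        omega
      · have h4 : (K.frobenius.even M).count z = 0 := Multiset.count_eq_zero.2 h3
        omega
    · have h2 : Submodule.span ℚ {(Mot.numHom M M).mkQ (𝟙 M)} = ⊤ := by
        rw [eq_top_iff]
        intro y _
        obtain ⟨f, rfl⟩ := (Mot.numHom M M).mkQ_surjective y
        obtain ⟨r, hf⟩ := hr f
        rw [Submodule.mem_span_singleton]
        refine ⟨r, ?_⟩
        rw [← map_smul, eq_comm, ← sub_eq_zero, ← map_sub, Submodule.mkQ_apply,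
          Submodule.Quotient.mk_eq_zero, Mot.mem_numHom]
        exact hf
      have h3 : (Mot.numHom M M).mkQ (𝟙 M) ≠ 0 := by
        rw [Submodule.mkQ_apply, ne_eq, Submodule.Quotient.mk_eq_zero, Mot.mem_numHom]
        exact h0
      apply le_antisymm
      · rw [← rank_top, ← h2]
        exact (rank_span_le _).trans (by simp)
      · rw [Cardinal.one_le_iff_ne_zero, ne_eq, rank_zero_iff]
        intro h4
        exact h3 (Subsingleton.elim _ _)

include K in
theorem abelian_of_zero (h : ∀ (M N : Mot T) (f : M ⟶ N), MotP.NumTrivial f → f = 0) :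
    MotP.IsAbelian (Mot T) := MotE.abelian_of_zero K.frobenius h

end Cohomology

end CHM

namespace CHS

variable {V : Type u} [Category.{v} V] [CartesianMonoidalCategory V]

namespace Cohomology

variable {T : ChowTheory.{v, u, w} V} (K : Cohomology.{v, u, w, x} T)

theorem zero_of_old (h : ∀ (M N : CHM.Mot T.toOld) (f : M ⟶ N), MotP.NumTrivial f → f = 0)
    (X : V) (a : T.CH X) (ha : T.NumTrivial a) : a = 0 := by
  refine T.eq_zero_of_numTrivial (fun i a ha hn => num_old ?_ ha hn) a ha
  rw [eq_bot_iff]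
  intro b hb
  rw [Submodule.mem_bot]
  have h1 : CHM.Mot.secEquiv T.toOld X i b = 0 := by
    refine h _ _ _ ?_
    intro g
    exact CHM.Mot.trace_zero_of_zero _ ((CHM.Mot.nt_iff b).2 hb g)
  exact (map_eq_zero_iff _ (CHM.Mot.secEquiv T.toOld X i).injective).1 h1

/-- If the category of Chow motives is abelian, then numerically trivial cycles are zero, or for
every `n` there is a Chow motive `M = (X, p, m)` for which Frobenius has only the eigenvalue `q ^ m`
on `p_* H(X)`, with multiplicity at least `n`, and whose endomorphisms modulo the numerically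
trivial ones are one-dimensional. -/
theorem dichotomy (hA : IsAbelian (Mot T)) :
    (∀ (X : V) (a : T.CH X), T.NumTrivial a → a = 0) ∨
    ∀ n : ℕ, ∃ M : Mot T, n ≤ K.mult M ((T.q : ℂ) ^ M.m) ∧
      (∀ z : ℂ, z ≠ (T.q : ℂ) ^ M.m → K.mult M z = 0) ∧
      T.numRank (Set.range (Mot.Hom.val : Mot.Hom M M → T.CH (M.X ⊗ M.X))) = 1 := by
  have hq : (T.q : ℂ) ≠ 0 := by
    have h := T.one_lt
    exact_mod_cast (by omega : T.q ≠ 0)
  rcases K.toOld.dichotomy (isAbelian_mot.1 hA) with h1 | h1
  · exact Or.inl fun X a ha => zero_of_old h1 X a ha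
  · right
    intro n
    obtain ⟨M, hn, hz, hr⟩ := h1 n
    refine ⟨Mot.new M, ?_, ?_, ?_⟩
    · rw [K.mult_old, ← zpow_add₀ hq]
      have h2 : -(Mot.new M).m + (Mot.new M).m = 0 := by ring
      rw [h2, zpow_zero]
      exact hn
    · intro z hz1
      rw [K.mult_old]
      apply hz
      intro h2
      apply hz1
      rw [zpow_neg] at h2
      have h3 := mul_inv_cancel₀ (zpow_ne_zero (Mot.new M).m hq)
      have h4 : (T.q : ℂ) ^ (Mot.new M).m * (((T.q : ℂ) ^ (Mot.new M).m)⁻¹ * z) =
          (T.q : ℂ) ^ (Mot.new M).m * 1 := congrArg _ h2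
      rw [← mul_assoc, h3, one_mul, mul_one] at h4
      exact h4
    · rw [Mot.numRank_end]
      exact hr

include K in
/-- Jannsen: if numerically trivial cycles are zero, the category of Chow motives is abelian. -/
theorem abelian_of_zero (h : ∀ (X : V) (a : T.CH X), T.NumTrivial a → a = 0) :
    IsAbelian (Mot T) := by
  rw [isAbelian_mot]
  apply K.toOld.abelian_of_zero
  intro M N f hf
  have h1 : f ∈ CHM.Mot.numHom (Mot.new M).old (Mot.new N).old := (CHM.Mot.mem_numHom f).2 hf
  have h2 : T.NumTrivial f.1 := (Mot.numHom_iff (M := Mot.new M) (N := Mot.new N) f).1 h1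
  exact Subtype.ext (h _ _ h2)

/-- Tate's formula up to a constant factor is enough: then the category of Chow motives is abelian
if and only if numerically trivial cycles are zero. -/
theorem abelian_iff (c : ℕ) (hc : ∀ M : Mot T, (∀ z : ℂ, z ≠ (T.q : ℂ) ^ M.m → K.mult M z = 0) →
      ((K.mult M ((T.q : ℂ) ^ M.m) ^ 2 : ℕ) : Cardinal.{w}) ≤
        c * T.numRank (Set.range (Mot.Hom.val : Mot.Hom M M → T.CH (M.X ⊗ M.X)))) :
    IsAbelian (Mot T) ↔ ∀ (X : V) (a : T.CH X), T.NumTrivial a → a = 0 := by
  constructor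
  · intro hA
    rcases K.dichotomy hA with h1 | h1
    · exact h1
    · exfalso
      obtain ⟨M, hn, hz, hr⟩ := h1 (c + 1)
      have h2 := hc M hz
      rw [hr, mul_one] at h2
      have h3 : K.mult M ((T.q : ℂ) ^ M.m) ^ 2 ≤ c := by exact_mod_cast h2
      have h4 : K.mult M ((T.q : ℂ) ^ M.m) ≤ K.mult M ((T.q : ℂ) ^ M.m) ^ 2 :=
        Nat.le_self_pow (by norm_num) _
      omega
  · exact K.abelian_of_zero

end Cohomology

end CHS
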