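import Pool.Agent.MotE.GenBy

/-!
# The full subcategory of the objects generated by a class (MP_6c4da4_ag, by helper7)
-/

set_option autoImplicit false

open CategoryTheory MonoidalCategory BraidedCategory Limits ObjectProperty ZeroObject

universe v u

namespace MotE

open Mot

noncomputable section

set_option linter.unusedSectionVars false

variable {C : Type u} [Category.{v} C] [Preadditive C] [Linear ℚ C] [MonoidalCategory C]
  [SymmetricCategory C] [MonoidalPreadditive C] [MonoidalLinear ℚ C] [RightRigidCategory C]

/-- the property of being generated -/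
abbrev PG (S : C → Prop) : ObjectProperty C := fun X => GenBy S X

instance (S : C → Prop) : (PG S).IsMonoidal where
  prop_unit := GenBy.unit
  prop_tensor X Y hX hY := GenBy.tensor X Y hX hY

/-- duals in the full subcategory -/
@[reducible] def pairing (S : C → Prop) (X Y : (PG S).FullSubcategory)
    [ExactPairing X.obj Y.obj] : ExactPairing X Y where
  coevaluation' := homMk (η_ X.obj Y.obj)
  evaluation' := homMk (ε_ X.obj Y.obj)
  coevaluation_evaluation' := by
    ext
    exact ExactPairing.coevaluation_evaluation X.obj Y.obj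
  evaluation_coevaluation' := by
    ext
    exact ExactPairing.evaluation_coevaluation X.obj Y.obj

instance (S : C → Prop) : RightRigidCategory (PG S).FullSubcategory where
  rightDual X :=
    { rightDual := ⟨X.objᘁ, GenBy.dual _ X.property⟩
      exact := pairing S X ⟨X.objᘁ, GenBy.dual _ X.property⟩ }

lemma trace_hom (S : C → Prop) {X : (PG S).FullSubcategory} (f : X ⟶ X) :
    (Mot.trace f).hom = Mot.trace f.hom := rfl

/-- the Frobenius of the full subcategory -/
def subF (W : MotP.Frobenius C) (S : C → Prop) :
    𝟭 (PG S).FullSubcategory ⟶ 𝟭 (PG S).FullSubcategory where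
  app X := homMk (W.F.app X.obj)
  naturality X Y f := by
    ext
    exact W.F.naturality f.hom

lemma component_pow (W : MotP.Frobenius C) (S : C → Prop) (X : (PG S).FullSubcategory) (n : ℕ) :
    InducedCategory.Hom.hom (component (subF W S) X ^ n : X ⟶ X) =
      (component W.F X.obj ^ n : X.obj ⟶ X.obj) := by
  induction n with
  | zero => rfl
  | succ n ih =>
    rw [pow_succ, pow_succ]
    change (component (subF W S) X : X ⟶ X).hom ≫ InducedCategory.Hom.hom
      (component (subF W S) X ^ n : X ⟶ X) = (component W.F X.obj : X.obj ⟶ X.obj) ≫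
        (component W.F X.obj ^ n : X.obj ⟶ X.obj)
    rw [ih]
    rfl

/-- the Frobenius structure on the full subcategory -/
def sub (W : MotP.Frobenius C) (S : C → Prop) : MotP.Frobenius (PG S).FullSubcategory where
  scalar f := by
    obtain ⟨r, hr⟩ := W.scalar f.hom
    refine ⟨r, ?_⟩
    ext
    exact hr
  unit_ne h := by
    have h1 := congrArg InducedCategory.Hom.hom h
    exact W.unit_ne h1
  F := subF W S
  F_unit := by
    ext
    exact W.F_unit
  F_tensor X Y := by
    ext
    exact W.F_tensor X.obj Y.obj
  even X := W.even X.obj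
  odd X := W.odd X.obj
  trace_formula X n r h := by
    apply W.trace_formula X.obj n r
    have h1 := congrArg InducedCategory.Hom.hom h
    rw [trace_hom] at h1
    have h2 := component_pow W S X n
    rw [h2] at h1
    exact h1
  one_not_odd X := W.one_not_odd X.obj

/-- sections in the full subcategory -/
def homEq (S : C → Prop) (X Y : (PG S).FullSubcategory) :
    (X ⟶ Y) ≃ₗ[ℚ] (X.obj ⟶ Y.obj) where
  toFun f := f.hom
  invFun f := homMk f
  left_inv _ := rfl
  right_inv _ := rfl
  map_add' _ _ := rfl
  map_smul' _ _ := rfl

lemma num_sub (S : C → Prop) {X Y : (PG S).FullSubcategory} (f : X ⟶ Y) :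
    MotP.NumTrivial f ↔ MotP.NumTrivial f.hom := by
  constructor
  · intro h g
    have h1 := congrArg InducedCategory.Hom.hom (h (homMk g))
    exact h1
  · intro h g
    ext
    exact h g.hom

lemma tate_sub (W : MotP.Frobenius C) (S : C → Prop) (X : (PG S).FullSubcategory) :
    Mot84.TateSquare (sub W S) X ↔ Mot84.TateSquare W X.obj := by
  have h1 : Submodule.map (homEq S (𝟙_ _) (X ⊗ Xᘁ)).toLinearMap (MotP.ntSections (X ⊗ Xᘁ)) =
      MotP.ntSections (X.obj ⊗ X.objᘁ) := by
    ext f
    constructor
    · rintro ⟨f', hf', rfl⟩ g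
      have h1 := congrArg InducedCategory.Hom.hom (hf' (homMk g))
      exact h1
    · intro hf
      refine ⟨homMk f, ?_, rfl⟩
      intro g
      ext
      exact hf g.hom
  have h2 := (Submodule.Quotient.equiv _ _ (homEq S (𝟙_ _) (X ⊗ Xᘁ)) h1).rank_eq
  exact ⟨fun h => h2.symm.trans h, fun h => h2.trans h⟩

lemma gen_sub (S : C → Prop) {X : C} (h : GenBy S X) :
    GenBy (fun Y : (PG S).FullSubcategory => S Y.obj) (⟨X, h⟩ : (PG S).FullSubcategory) := by
  induction h with
  | of X h => exact GenBy.of _ h
  | unit => exact GenBy.unit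
  | tensor X Y _ _ hX hY => exact GenBy.tensor _ _ hX hY
  | dual X _ hX => exact GenBy.dual _ hX
  | sum X Y Z i p j q h1 h2 h3 _ _ hX hY =>
    refine GenBy.sum _ _ _ (homMk i) (homMk p) (homMk j) (homMk q) ?_ ?_ ?_ hX hY
    · ext
      exact h1
    · ext
      exact h2
    · ext
      exact h3
  | summand X Y i p h _ hX =>
    refine GenBy.summand _ _ (homMk i) (homMk p) ?_ hX
    ext
    exact h

instance [IsIdempotentComplete C] (S : C → Prop) :
    IsIdempotentComplete (PG S).FullSubcategory where
  idempotents_split X e he := by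
    obtain ⟨Y, i, p, h1, h2⟩ := IsIdempotentComplete.idempotents_split X.obj e.hom
      (congrArg InducedCategory.Hom.hom he)
    refine ⟨⟨Y, GenBy.summand _ _ i p h1 X.property⟩, homMk i, homMk p, ?_, ?_⟩
    · ext
      exact h1
    · ext
      exact h2

instance [HasFiniteBiproducts C] (S : C → Prop) :
    HasBinaryBiproducts (PG S).FullSubcategory where
  has_binary_biproduct X Y := by
    have : HasBinaryBiproducts C := hasBinaryBiproducts_of_finite_biproducts C
    let Z : (PG S).FullSubcategory := ⟨X.obj ⊞ Y.obj, GenBy.sum _ _ _ biprod.inl biprod.fst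
      biprod.inr biprod.snd biprod.inl_fst biprod.inr_snd biprod.total X.property Y.property⟩
    let b : BinaryBicone X Y :=
      { pt := Z
        fst := homMk biprod.fst
        snd := homMk biprod.snd
        inl := homMk biprod.inl
        inr := homMk biprod.inr
        inl_fst := by ext; exact biprod.inl_fst
        inl_snd := by ext; exact biprod.inl_snd
        inr_fst := by ext; exact biprod.inr_fst
        inr_snd := by ext; exact biprod.inr_snd }
    refine hasBinaryBiproduct_of_total b ?_
    apply ObjectProperty.hom_ext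
    exact biprod.total (X := X.obj) (Y := Y.obj)

instance [HasFiniteBiproducts C] (S : C → Prop) :
    HasZeroObject (PG S).FullSubcategory where
  zero := by
    have : HasZeroObject C := inferInstance
    refine ⟨⟨(0 : C), GenBy.summand (𝟙_ C) 0 0 0 ?_ GenBy.unit⟩, ?_⟩
    · exact (isZero_zero C).eq_of_src _ _
    · rw [IsZero.iff_id_eq_zero]
      ext

instance hasFiniteBiproducts_PG [HasFiniteBiproducts C] (S : C → Prop) :
    HasFiniteBiproducts (PG S).FullSubcategory := by
  have h1 : HasInitial (PG S).FullSubcategory := HasZeroObject.hasInitial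
  have h2 : HasFiniteCoproducts (PG S).FullSubcategory :=
    hasFiniteCoproducts_of_has_binary_and_initial
  exact HasFiniteBiproducts.of_hasFiniteCoproducts

/-- the second alternative in the subcategory gives the second alternative in the category -/
theorem big_sub (W : MotP.Frobenius C) (S : C → Prop)
    (h : Big (sub W S) (fun Y : (PG S).FullSubcategory => S Y.obj)) : Big W S := by
  obtain ⟨⟨X, hX, hT⟩, hb⟩ := h
  refine ⟨⟨X.obj, hX, fun h => hT ((tate_sub W S X).2 h)⟩, fun n => ?_⟩
  obtain ⟨M, -, hI, hn, hz, hr⟩ := hb n
  refine ⟨M.obj, M.property, ?_, hn, hz, ?_⟩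
  · intro e he
    have h1 : (homMk e : M ⟶ M) ≫ homMk e = homMk e := by
      ext
      exact he
    rcases hI _ h1 with h2 | h2
    · left
      exact congrArg InducedCategory.Hom.hom h2
    · right
      exact congrArg InducedCategory.Hom.hom h2
  · intro N hN
    obtain ⟨N', hN'⟩ : ∃ N' : Submodule ℚ (M ⟶ M), N' = N.comap (homEq S M M).toLinearMap := ⟨_, rfl⟩
    have h1 : Submodule.map (homEq S M M).toLinearMap N' = N := by
      rw [hN']
      exact Submodule.map_comap_eq_of_surjective (homEq S M M).surjective N
    have h2 := (Submodule.Quotient.equiv N' N (homEq S M M) h1).rank_eq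
    rw [← h2]
    apply hr
    intro f hf
    rw [hN', Submodule.mem_comap]
    exact hN f.hom ((num_sub S f).1 hf)

/-- the main theorem -/
theorem main [HasFiniteBiproducts C] [IsIdempotentComplete C] (W : MotP.Frobenius C)
    (S : C → Prop) :
    (MotP.IsAbelian C ∨ MotP.IsAbelian (PG S).FullSubcategory →
      (∀ (X Y : C) (f : X ⟶ Y), GenBy S X → GenBy S Y → MotP.NumTrivial f → f = 0) ∨ Big W S) ∧
    ((∀ (X Y : C) (f : X ⟶ Y), GenBy S X → GenBy S Y → MotP.NumTrivial f → f = 0) →
      MotP.IsAbelian (PG S).FullSubcategory) := by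
  refine ⟨?_, ?_⟩
  · rintro (⟨hK, hCK, hcomp⟩ | ⟨hK, hCK, hcomp⟩)
    · have hc : ∀ {X Y : C} (f : X ⟶ Y), IsIso (Abelian.coimageImageComparison f) :=
        fun f => hcomp _ _ f
      let _ : Abelian C := Abelian.ofCoimageImageComparisonIsIso
      exact abs_dich W S
    · have hc : ∀ {X Y : (PG S).FullSubcategory} (f : X ⟶ Y),
          IsIso (Abelian.coimageImageComparison f) := fun f => hcomp _ _ f
      let _ : Abelian (PG S).FullSubcategory := Abelian.ofCoimageImageComparisonIsIso
      rcases abs_dich (sub W S) (fun Y : (PG S).FullSubcategory => S Y.obj) with h | h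
      · left
        intro X Y f hX hY hf
        have h1 := h ⟨X, hX⟩ ⟨Y, hY⟩ (homMk f) (gen_sub S hX) (gen_sub S hY)
          ((num_sub S _).2 hf)
        exact congrArg InducedCategory.Hom.hom h1
      · right
        exact big_sub W S h
  · intro h
    refine ((sub W S).toFrob ?_).isAbelian
    intro X Y f hf
    ext
    exact h _ _ f.hom X.property Y.property ((num_sub S f).1 hf)

end

end MotE
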