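import Pool.Agent.MotE.Defs
import Pool.Agent.MotE.SubBy
import Pool.Agent.MotE.Main

/-!
# The dichotomy for the Chow motives generated by a class (MP_6c4da4_ag, by helper7)
-/

set_option autoImplicit false

open CategoryTheory MonoidalCategory CartesianMonoidalCategory Limits

universe v u w x

namespace CHS

variable {V : Type u} [Category.{v} V] [CartesianMonoidalCategory V]

namespace Cohomology

variable {T : ChowTheory.{v, u, w} V} (K : Cohomology.{v, u, w, x} T)

/-- a motive with a simple spectrum satisfies Tate's formula -/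
theorem tate_of_simple (M : Mot T) (h : ∀ z : ℂ, K.mult M z ≤ 1) : K.TateFormula M := by
  rw [K.tateFormula_iff, K.toOld.tateFormula_iff]
  apply MotP.M73.tateSquare_of_nodup
  have h1 := (K.simple_iff M).1 h
  rw [K.toOld.roots_frobM] at h1
  exact h1

end Cohomology

section

variable {T : ChowTheory.{v, u, w} V} (S : Mot T → Prop)

/-- the class in the library `CHM` -/
def clsOld (M : CHM.Mot T.toOld) : Prop := S (Mot.new M) ∨ ∃ m : ℤ, M = CHM.Mot.h T.toOld (𝟙_ V) m

theorem old_genBy {M : Mot T} (h : GenBy S M) : MotE.GenBy (clsOld S) M.old := by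
  induction h with
  | of M h => exact MotE.GenBy.of _ (Or.inl h)
  | tate m => exact MotE.GenBy.of _ (Or.inr ⟨m, rfl⟩)
  | tensor M N _ _ hM hN => exact MotE.GenBy.tensor _ _ hM hN
  | dual M _ hM => exact MotE.GenBy.dual _ hM
  | sum M N L i p j q h1 h2 h3 _ _ hM hN =>
    exact MotE.GenBy.sum _ _ _ (Mot.oldHom i) (Mot.oldHom p) (Mot.oldHom j) (Mot.oldHom q)
      (congrArg Mot.oldHom h1) (congrArg Mot.oldHom h2) (congrArg Mot.oldHom h3) hM hN
  | summand M N i p h _ hM =>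
    exact MotE.GenBy.summand _ _ (Mot.oldHom i) (Mot.oldHom p) (congrArg Mot.oldHom h) hM

theorem genBy_old {M : CHM.Mot T.toOld} (h : MotE.GenBy (clsOld S) M) : GenBy S (Mot.new M) := by
  induction h with
  | of M h =>
    rcases h with h | ⟨m, rfl⟩
    · exact GenBy.of _ h
    · exact GenBy.tate m
  | unit => exact GenBy.tate 0
  | tensor M N _ _ hM hN => exact GenBy.tensor _ _ hM hN
  | dual M _ hM => exact GenBy.dual _ hM
  | sum M N L i p j q h1 h2 h3 _ _ hM hN =>
    refine GenBy.sum (Mot.new M) (Mot.new N) (Mot.new L)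
      (Mot.newHom (M := Mot.new M) (N := Mot.new L) i)
      (Mot.newHom (M := Mot.new L) (N := Mot.new M) p)
      (Mot.newHom (M := Mot.new N) (N := Mot.new L) j)
      (Mot.newHom (M := Mot.new L) (N := Mot.new N) q) ?_ ?_ ?_ hM hN
    · exact congrArg (Mot.newHom (M := Mot.new M) (N := Mot.new M)) h1
    · exact congrArg (Mot.newHom (M := Mot.new N) (N := Mot.new N)) h2
    · exact congrArg (Mot.newHom (M := Mot.new L) (N := Mot.new L)) h3
  | summand M N i p h _ hM =>
    refine GenBy.summand (Mot.new M) (Mot.new N) (Mot.newHom (M := Mot.new N) (N := Mot.new M) i)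
      (Mot.newHom (M := Mot.new M) (N := Mot.new N) p) ?_ hM
    exact congrArg (Mot.newHom (M := Mot.new N) (N := Mot.new N)) h

theorem genBy_iff (M : Mot T) : GenBy S M ↔ MotE.GenBy (clsOld S) M.old :=
  ⟨old_genBy S, fun h => genBy_old S h⟩

instance : (MotE.PG (clsOld S)).IsClosedUnderIsomorphisms :=
  ⟨fun {M N} e h => MotE.GenBy.summand M N e.inv e.hom e.inv_hom_id h⟩

theorem isAbelian_catBy :
    IsAbelian (CatBy S) ↔ MotP.IsAbelian (MotE.PG (clsOld S)).FullSubcategory :=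
  (isAbelian_full_iff (oldFunctor T) (fun M : Mot T => GenBy S M) (MotE.PG (clsOld S))
    (genBy_iff S)).trans isAbelian_iff_motP

theorem zero_iff : (∀ (M N : Mot T) (f : M ⟶ N), GenBy S M → GenBy S N →
      T.NumTrivial (Mot.Hom.val f) → f = 0) ↔
    ∀ (M N : CHM.Mot T.toOld) (f : M ⟶ N), MotE.GenBy (clsOld S) M → MotE.GenBy (clsOld S) N →
      MotP.NumTrivial f → f = 0 := by
  constructor
  · intro h M N f hM hN hf
    have h1 : f ∈ CHM.Mot.numHom (Mot.new M).old (Mot.new N).old := (CHM.Mot.mem_numHom f).2 hf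
    have h2 := h (Mot.new M) (Mot.new N) (Mot.newHom f) (genBy_old S hM) (genBy_old S hN)
      ((Mot.numHom_iff (M := Mot.new M) (N := Mot.new N) f).1 h1)
    exact congrArg Mot.oldHom h2
  · intro h M N f hM hN hf
    have h1 : Mot.oldHom f ∈ CHM.Mot.numHom M.old N.old := (Mot.numHom_iff (Mot.oldHom f)).2 hf
    have h2 := h M.old N.old (Mot.oldHom f) (old_genBy S hM) (old_genBy S hN)
      ((CHM.Mot.mem_numHom _).1 h1)
    exact congrArg Mot.newHom h2

theorem genBy_shift {X : V} (hX : GenBy S (Mot.h T X)) (n : ℤ) :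
    MotE.GenBy (clsOld S) (CHM.Mot.h T.toOld X n) := by
  have h1 : MotE.GenBy (clsOld S) (CHM.Mot.h T.toOld X 0) := old_genBy S hX
  have h2 : MotE.GenBy (clsOld S) (CHM.Mot.h T.toOld (𝟙_ V) n) :=
    MotE.GenBy.of _ (Or.inr ⟨n, rfl⟩)
  have h3 := MotE.GenBy.tensor _ _ h1 h2
  rw [CHM.Mot.h_tensor] at h3
  have e : CHM.Mot.h T.toOld (X ⊗ 𝟙_ V) (0 + n) ≅ CHM.Mot.h T.toOld X n :=
    CHM.Mot.hIso (ρ_ X).symm (by ring)
  exact MotE.GenBy.summand _ _ e.inv e.hom e.inv_hom_id h3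

/-- numerically trivial cycles on a variety with a generated motive -/
theorem cycle_zero (h : ∀ (M N : Mot T) (f : M ⟶ N), GenBy S M → GenBy S N →
      T.NumTrivial (Mot.Hom.val f) → f = 0) (X : V) (hX : GenBy S (Mot.h T X)) (a : T.CH X)
    (ha : T.NumTrivial a) : a = 0 := by
  have h' := (zero_iff S).1 h
  refine T.eq_zero_of_numTrivial (fun i a ha hn => Cohomology.num_old ?_ ha hn) a ha
  rw [eq_bot_iff]
  intro b hb
  rw [Submodule.mem_bot]
  have h1 : CHM.Mot.secEquiv T.toOld X i b = 0 := by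
    refine h' _ _ _ MotE.GenBy.unit (genBy_shift S hX i) ?_
    intro g
    exact CHM.Mot.trace_zero_of_zero _ ((CHM.Mot.nt_iff b).2 hb g)
  exact (map_eq_zero_iff _ (CHM.Mot.secEquiv T.toOld X i).injective).1 h1

end

namespace Cohomology

variable {T : ChowTheory.{v, u, w} V} (K : Cohomology.{v, u, w, x} T)

/-- the second alternative -/
theorem big_old (S : Mot T → Prop) (h : MotE.Big K.toOld.frobenius (clsOld S)) :
    (∃ M : Mot T, S M ∧ ¬ K.TateFormula M) ∧ ∀ n : ℕ, ∃ M : Mot T, GenBy S M ∧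
      (∀ e : M ⟶ M, e ≫ e = e → e = 0 ∨ e = 𝟙 M) ∧ n ≤ K.mult M ((T.q : ℂ) ^ M.m) ∧
      (∀ z : ℂ, z ≠ (T.q : ℂ) ^ M.m → K.mult M z = 0) ∧
      T.numRank (Set.range (Mot.Hom.val : Mot.Hom M M → T.CH (M.X ⊗ M.X))) ≤
        (K.mult M ((T.q : ℂ) ^ M.m) : ℕ) := by
  have hq : (T.q : ℂ) ≠ 0 := by
    have h := T.one_lt
    exact_mod_cast (by omega : T.q ≠ 0)
  obtain ⟨⟨M, hM, hT⟩, hb⟩ := h
  refine ⟨?_, fun n => ?_⟩
  · rcases hM with hM | ⟨m, rfl⟩
    · refine ⟨Mot.new M, hM, fun h => hT ?_⟩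
      exact (K.toOld.tateFormula_iff M).1 ((K.tateFormula_iff (Mot.new M)).1 h)
    · exfalso
      apply hT
      have h1 : K.TateFormula (Mot.new (CHM.Mot.h T.toOld (𝟙_ V) m)) :=
        K.tate_of_simple _ fun z => K.mult_unit z _ _ _ _
      exact (K.toOld.tateFormula_iff _).1 ((K.tateFormula_iff (Mot.new _)).1 h1)
  · obtain ⟨M, hM, hI, hn, hz, hr⟩ := hb n
    have hodd : (K.toOld.frobenius.odd M).count 1 = 0 :=
      Multiset.count_eq_zero.2 (K.toOld.frobenius.one_not_odd M)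
    have hm : K.mult (Mot.new M) ((T.q : ℂ) ^ (Mot.new M).m) =
        (K.toOld.frobenius.even M).count 1 := by
      rw [K.mult_old, ← zpow_add₀ hq]
      have h2 : -(Mot.new M).m + (Mot.new M).m = 0 := by ring
      rw [h2, zpow_zero]
      change K.toOld.multM M 1 = _
      rw [K.toOld.multM_add, hodd, add_zero]
    refine ⟨Mot.new M, genBy_old S hM, ?_, ?_, ?_, ?_⟩
    · intro e he
      rcases hI (Mot.oldHom e) (congrArg Mot.oldHom he) with h1 | h1
      · exact Or.inl (congrArg (Mot.newHom (M := Mot.new M) (N := Mot.new M)) h1)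
      · exact Or.inr (congrArg (Mot.newHom (M := Mot.new M) (N := Mot.new M)) h1)
    · rw [hm]
      exact hn
    · intro z hz1
      rw [K.mult_old]
      obtain ⟨y, hy⟩ : ∃ y, y = (T.q : ℂ) ^ (-(Mot.new M).m) * z := ⟨_, rfl⟩
      rw [← hy]
      have hy1 : y ≠ 1 := by
        intro h2
        apply hz1
        rw [hy, zpow_neg] at h2
        have h3 := mul_inv_cancel₀ (zpow_ne_zero (Mot.new M).m hq)
        have h4 : (T.q : ℂ) ^ (Mot.new M).m * (((T.q : ℂ) ^ (Mot.new M).m)⁻¹ * z) =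
            (T.q : ℂ) ^ (Mot.new M).m * 1 := congrArg _ h2
        rw [← mul_assoc, h3, one_mul, mul_one] at h4
        exact h4
      have h5 := hz y hy1
      change K.toOld.multM M y = 0
      rw [K.toOld.multM_add]
      by_cases h3 : y ∈ K.toOld.frobenius.even M
      · have h4 : (K.toOld.frobenius.odd M).count y = 0 :=
          Multiset.count_eq_zero.2 (fun h4 => K.toOld.even_odd_disjoint h3 h4)
        omega
      · have h4 : (K.toOld.frobenius.even M).count y = 0 := Multiset.count_eq_zero.2 h3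
        omega
    · rw [Mot.numRank_end, hm]
      apply hr
      intro f hf
      exact (CHM.Mot.mem_numHom f).2 hf

/-- The dichotomy for the motives generated by `S`. -/
theorem byClass (S : Mot T → Prop) :
    (IsAbelian (Mot T) ∨ IsAbelian (CatBy S) →
      (∀ (M N : Mot T) (f : M ⟶ N), GenBy S M → GenBy S N →
        T.NumTrivial (Mot.Hom.val f) → f = 0) ∨
      ((∃ M : Mot T, S M ∧ ¬ K.TateFormula M) ∧ ∀ n : ℕ, ∃ M : Mot T, GenBy S M ∧
        (∀ e : M ⟶ M, e ≫ e = e → e = 0 ∨ e = 𝟙 M) ∧ n ≤ K.mult M ((T.q : ℂ) ^ M.m) ∧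
        (∀ z : ℂ, z ≠ (T.q : ℂ) ^ M.m → K.mult M z = 0) ∧
        T.numRank (Set.range (Mot.Hom.val : Mot.Hom M M → T.CH (M.X ⊗ M.X))) ≤
          (K.mult M ((T.q : ℂ) ^ M.m) : ℕ))) ∧
    ((∀ (M N : Mot T) (f : M ⟶ N), GenBy S M → GenBy S N →
        T.NumTrivial (Mot.Hom.val f) → f = 0) →
      IsAbelian (CatBy S) ∧
        ∀ X : V, GenBy S (Mot.h T X) → ∀ a : T.CH X, T.NumTrivial a → a = 0) := by
  obtain ⟨h1, h2⟩ := MotE.main K.toOld.frobenius (clsOld S)
  rw [← zero_iff S, ← isAbelian_catBy S] at h1 h2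
  rw [← isAbelian_mot] at h1
  refine ⟨fun h => (h1 h).imp_right (K.big_old S), fun h => ⟨h2 h, fun X hX a ha => ?_⟩⟩
  exact cycle_zero S h X hX a ha

/-- The main theorem: for the class of the motives generated by `S`, being abelian is equivalent to
the vanishing of the numerically trivial morphisms, and both follow if all Chow motives form an
abelian category; or Tate's formula is violated by arbitrarily large factors. -/
theorem dichotomyBy (S : Mot T → Prop) :
    ((IsAbelian (Mot T) → IsAbelian (CatBy S)) ∧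
      (IsAbelian (CatBy S) ↔ ∀ (M N : Mot T) (f : M ⟶ N), GenBy S M → GenBy S N →
        T.NumTrivial (Mot.Hom.val f) → f = 0) ∧
      (IsAbelian (CatBy S) →
        ∀ X : V, GenBy S (Mot.h T X) → ∀ a : T.CH X, T.NumTrivial a → a = 0)) ∨
    ((∃ M : Mot T, S M ∧ ¬ K.TateFormula M) ∧ ∀ n : ℕ, ∃ M : Mot T, GenBy S M ∧
      (∀ e : M ⟶ M, e ≫ e = e → e = 0 ∨ e = 𝟙 M) ∧ n ≤ K.mult M ((T.q : ℂ) ^ M.m) ∧
      (∀ z : ℂ, z ≠ (T.q : ℂ) ^ M.m → K.mult M z = 0) ∧
      T.numRank (Set.range (Mot.Hom.val : Mot.Hom M M → T.CH (M.X ⊗ M.X))) ≤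
        (K.mult M ((T.q : ℂ) ^ M.m) : ℕ)) := by
  obtain ⟨h1, h2⟩ := K.byClass S
  rw [or_iff_not_imp_right]
  intro hB
  have h3 : IsAbelian (Mot T) ∨ IsAbelian (CatBy S) → ∀ (M N : Mot T) (f : M ⟶ N), GenBy S M →
      GenBy S N → T.NumTrivial (Mot.Hom.val f) → f = 0 :=
    fun h => (h1 h).resolve_right hB
  exact ⟨fun h => (h2 (h3 (Or.inl h))).1, ⟨fun h => h3 (Or.inr h), fun h => (h2 h).1⟩,
    fun h => (h2 (h3 (Or.inr h))).2⟩

end Cohomology

end CHS
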