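import Pool.Agent.MotE.Inj
import Pool.Agent.MotP.Eq

/-!
# The dichotomy for a Frobenius structure on an abelian category (MP_6c4da4_ag, by helper7)
-/

set_option autoImplicit false

open CategoryTheory MonoidalCategory BraidedCategory Limits

universe v u

namespace MotE

open Mot

/-- If `C` is abelian, then numerically trivial morphisms are zero, or there are objects `I` of
arbitrarily large rank all of whose Frobenius eigenvalues are `1` and all of whose endomorphisms are
rational scalars modulo the numerically trivial ones. -/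
theorem dichotomy {C : Type u} [Category.{v} C] [Preadditive C] [Linear ℚ C] [MonoidalCategory C]
    [SymmetricCategory C] [MonoidalPreadditive C] [MonoidalLinear ℚ C] [RightRigidCategory C]
    [HasFiniteBiproducts C] (W : MotP.Frobenius C) (h : MotP.IsAbelian C) :
    (∀ (X Y : C) (f : X ⟶ Y), MotP.NumTrivial f → f = 0) ∨
    ∀ n : ℕ, ∃ I : C, n ≤ (W.even I).count 1 ∧
      (∀ z : ℂ, z ≠ 1 → (W.even I).count z = (W.odd I).count z) ∧ ¬ MotP.NumTrivial (𝟙 I) ∧
      ∀ f : I ⟶ I, ∃ r : ℚ, MotP.NumTrivial (f - r • 𝟙 I) := by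
  obtain ⟨hK, hCK, hcomp⟩ := h
  have hc : ∀ {X Y : C} (f : X ⟶ Y), IsIso (Abelian.coimageImageComparison f) :=
    fun f => hcomp _ _ f
  let _ : Abelian C := Abelian.ofCoimageImageComparisonIsIso
  rcases W.toMot.dichotomy with h1 | h1
  · left
    exact h1
  · right
    intro n
    obtain ⟨I, i, hI, hn⟩ := h1 n
    refine ⟨I, hn, ?_, ?_, fun f => W.toMot.ess_end hI f⟩
    · intro z hz
      have h2 := W.toMot.ess_ν hI z
      rw [if_neg hz] at h2
      have h3 : ((W.even I).count z : ℤ) - (W.odd I).count z = 0 := h2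
      omega
    · intro h2
      have h3 : tr I (𝟙 I ≫ 𝟙 I) = 0 := h2 (𝟙 I)
      rw [Category.comp_id] at h3
      have h4 : W.toMot.t I 0 = 0 := by
        have h5 : W.toMot.t I 0 = W.toMot.val (tr I (𝟙 I)) := rfl
        rw [h5, h3, W.toMot.val_zero]
      have h6 := W.toMot.ess_mult hI
      have h7 := W.toMot.ess_pos hI
      rw [h4] at h6
      have h8 : W.toMot.mult I = 0 := by exact_mod_cast h6
      omega

/-- numerically trivial morphisms are zero: then the category is abelian (Jannsen) -/
theorem abelian_of_zero {C : Type u} [Category.{v} C] [Preadditive C] [Linear ℚ C]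
    [MonoidalCategory C] [SymmetricCategory C] [MonoidalPreadditive C] [MonoidalLinear ℚ C]
    [RightRigidCategory C] [HasFiniteBiproducts C] [IsIdempotentComplete C] (W : MotP.Frobenius C)
    (h : ∀ (X Y : C) (f : X ⟶ Y), MotP.NumTrivial f → f = 0) : MotP.IsAbelian C :=
  (W.toFrob h).isAbelian

end MotE
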