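import Pool.Agent.CHS.Cat
import Pool.Agent.CHS.Ops
import Pool.Agent.CHS.Abelian

/-!
# The Chow motives generated by a class of Chow motives: definitions (MP_6c4da4_ag, by helper7)
-/

set_option autoImplicit false

open CategoryTheory MonoidalCategory CartesianMonoidalCategory Limits

universe v u w

namespace CHS

variable {V : Type u} [Category.{v} V] [CartesianMonoidalCategory V]

/-- The Chow motives generated by those in `S` and the Tate motives `(point, 1, m)`, under tensor
products, duals, direct sums and direct summands. -/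
inductive GenBy {T : ChowTheory.{v, u, w} V} (S : Mot T → Prop) : Mot T → Prop
  | of (M : Mot T) : S M → GenBy S M
  | tate (m : ℤ) : GenBy S ⟨𝟙_ V, T.graph (𝟙 (𝟙_ V)), m, graph_mem T (𝟙_ V), graph_cp T (𝟙_ V)⟩
  | tensor (M N : Mot T) : GenBy S M → GenBy S N → GenBy S (M.tensor N)
  | dual (M : Mot T) : GenBy S M → GenBy S M.dual
  | sum (M N L : Mot T) (i : M ⟶ L) (p : L ⟶ M) (j : N ⟶ L) (q : L ⟶ N) :
      i ≫ p = 𝟙 M → j ≫ q = 𝟙 N → p ≫ i + q ≫ j = 𝟙 L → GenBy S M → GenBy S N → GenBy S L
  | summand (M N : Mot T) (i : N ⟶ M) (p : M ⟶ N) : i ≫ p = 𝟙 N → GenBy S M → GenBy S N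

/-- The full subcategory of the motives generated by `S`. -/
abbrev CatBy {T : ChowTheory.{v, u, w} V} (S : Mot T → Prop) : Type _ :=
  ObjectProperty.FullSubcategory (fun M : Mot T => GenBy S M)

end CHS
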