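import Pool.Agent.Mot.Len

/-!
# Essential extensions of the unit (MP_6c4da4_ag, by helper7)

`C` is a `ℚ`-linear abelian rigid symmetric monoidal category with a Frobenius structure.  Either
all numerically trivial morphisms are zero, or the unit has essential extensions of arbitrarily large
rank.
-/

set_option autoImplicit false

open CategoryTheory MonoidalCategory BraidedCategory Limits Polynomial

universe v u

namespace Mot

noncomputable section

set_option linter.unusedSectionVars false

variable {C : Type u} [Category.{v} C] [Abelian C] [Linear ℚ C] [MonoidalCategory C]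
  [SymmetricCategory C] [MonoidalPreadditive C] [MonoidalLinear ℚ C] [RightRigidCategory C]

/-- `i : 𝟙 ⟶ I` is an essential extension of the unit -/
structure Ess {I : C} (i : 𝟙_ C ⟶ I) : Prop where
  ne : i ≠ 0
  ess : ∀ (U : C) (u : U ⟶ I), Mono u → u ≠ 0 → ∃ s : 𝟙_ C ⟶ U, s ≫ u = i

theorem pw_nat {X Y : C} {f : X ⟶ X} {g : Y ⟶ Y} (j : X ⟶ Y) (h : j ≫ g = f ≫ j) (n : ℕ) :
    j ≫ pw g n = pw f n ≫ j := by
  induction n with
  | zero => simp [pw]
  | succ n ih =>
    have h1 : pw g (n + 1) = pw g n ≫ g := rfl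
    have h2 : pw f (n + 1) = pw f n ≫ f := rfl
    rw [h1, h2, ← Category.assoc, ih, Category.assoc, h, Category.assoc]

namespace Frob

variable (W : Frob C)

include W in
/-- the trace of a nilpotent endomorphism is zero -/
theorem tr_nil (m : ℕ) : ∀ (X : C) (f : X ⟶ X) (n : ℕ), W.tv X ≤ m → pw f n = 0 → tr X f = 0 := by
  induction m with
  | zero =>
    intro X f n hX _
    have hz : IsZero X := by
      by_contra h
      have := W.tv_pos h
      omega
    rw [hz.eq_of_src f 0, tr_zero]
  | succ m ih =>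
    intro X f n hX hf
    by_cases hc : IsZero (kernel f)
    · have h1 : Mono f := Preadditive.mono_of_kernel_iso_zero (hc.isoZero)
      have h2 : ∀ k, Mono (pw f k) := by
        intro k
        induction k with
        | zero => exact inferInstanceAs (Mono (𝟙 X))
        | succ k ihk =>
          have h3 : Mono (pw f k ≫ f) := mono_comp _ _
          exact h3
      have h3 := h2 n
      have hz : IsZero X := by
        rw [IsZero.iff_id_eq_zero, ← cancel_mono (pw f n), hf, Limits.comp_zero, Limits.comp_zero]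
      rw [hz.eq_of_src f 0, tr_zero]
    · set π := cokernel.π (kernel.ι f) with hπ
      have hS : (ShortComplex.mk (kernel.ι f) π (cokernel.condition _)).ShortExact :=
        { exact := ShortComplex.exact_cokernel _
          mono_f := inferInstanceAs (Mono (kernel.ι f))
          epi_g := inferInstanceAs (Epi (cokernel.π _)) }
      have hπe : Epi π := hS.epi_g
      set c : cokernel (kernel.ι f) ⟶ cokernel (kernel.ι f) :=
        cokernel.desc (kernel.ι f) (f ≫ π) (by
          rw [← Category.assoc, kernel.condition, Limits.zero_comp]) with hc'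
      have h1 : π ≫ c = f ≫ π := cokernel.π_desc _ _ _
      have h2 : pw c n = 0 := by
        rw [← cancel_epi π, pw_nat π h1, hf, Limits.zero_comp, Limits.comp_zero]
      have h3 : W.tv (cokernel (kernel.ι f)) ≤ m := by
        have h4 := W.tv_add hS
        have h5 := W.tv_pos hc
        change W.tv X = W.tv (kernel f) + W.tv (cokernel (kernel.ι f)) at h4
        omega
      have h6 := ih _ c n h3 h2
      have h7 := trP_additive hS (kernel f)ᘁ Xᘁ (cokernel (kernel.ι f))ᘁ (a := 0) (b := f) (c := c)
        (by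
          change kernel.ι f ≫ f = 0 ≫ kernel.ι f
          rw [kernel.condition, Limits.zero_comp])
        h1.symm
      change tr X f = tr (kernel f) 0 + tr (cokernel (kernel.ι f)) c at h7
      rw [h7, h6, tr_zero, add_zero]

include W in
theorem tr_of_nilpotent {X : C} (f : End X) (h : IsNilpotent f) : tr X f = 0 := by
  obtain ⟨n, hn⟩ := h
  apply W.tr_nil (W.tv X) X f n le_rfl
  rw [end_pow] at hn
  exact hn

include W in
theorem mono_unit {X : C} (i : 𝟙_ C ⟶ X) (h : i ≠ 0) : Mono i := by
  have := W.simple_unit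
  exact mono_of_nonzero_from_simple h

section

variable {I : C} {i : 𝟙_ C ⟶ I}

include W in
/-- an endomorphism which kills the unit is nilpotent -/
theorem ess_nil (h : Ess i) (f : End I) (hf : i ≫ (f : I ⟶ I) = 0) : IsNilpotent f := by
  have hfin : Module.Finite ℚ (End I) := W.finite_hom I I
  by_contra hn
  obtain ⟨g, h1, h2⟩ := exIdem' f hn
  obtain ⟨e, he⟩ : ∃ e : I ⟶ I, e = (f * aeval f g : End I) := ⟨_, rfl⟩
  have h3 : e ≫ e = e := by
    rw [he]
    exact h1
  have h4 : i ≫ e = 0 := by
    have h5 : (f * aeval f g : End I) = aeval f g * f := by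
      have h6 : aeval f (X * g) = aeval f (g * X) := by rw [mul_comm]
      rw [map_mul, map_mul, aeval_X] at h6
      exact h6
    have h7 : e = f ≫ (aeval f g : End I) := by
      rw [he, h5]
      rfl
    rw [h7, ← Category.assoc, hf, Limits.zero_comp]
  obtain ⟨Y, ι, p, h5, h6⟩ := IsIdempotentComplete.idempotents_split I e h3
  have hm : Mono ι := mono_of_mono_fac h5
  have h7 : ι ≠ 0 := by
    intro h0
    apply h2
    change _ = (0 : I ⟶ I)
    rw [← he, ← h6, h0, Limits.comp_zero]
  obtain ⟨s, hs⟩ := h.ess Y ι hm h7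
  apply h.ne
  rw [← hs]
  have h8 : ι = ι ≫ e := by rw [← h6, ← Category.assoc, h5, Category.id_comp]
  rw [h8, ← Category.assoc, hs, h4]

include W in
/-- an endomorphism acts on the unit by a scalar -/
theorem ess_scalar (h : Ess i) (f : I ⟶ I) : ∃ r : ℚ, i ≫ f = r • i := by
  by_cases h0 : i ≫ f = 0
  · exact ⟨0, by rw [h0, zero_smul]⟩
  · obtain ⟨s, hs⟩ := h.ess _ (i ≫ f) (W.mono_unit _ h0) h0
    obtain ⟨r, hr⟩ := W.scalar s
    rw [hr, Linear.smul_comp, Category.id_comp] at hs
    have hr0 : r ≠ 0 := by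
      rintro rfl
      rw [zero_smul] at hs
      exact h.ne hs.symm
    refine ⟨r⁻¹, ?_⟩
    have h1 : r⁻¹ • (r • (i ≫ f)) = r⁻¹ • i := congrArg (fun x => r⁻¹ • x) hs
    rw [smul_smul, inv_mul_cancel₀ hr0, one_smul] at h1
    exact h1

include W in
theorem ess_num (h : Ess i) (f : I ⟶ I) (hf : i ≫ f = 0) : NumTriv f := by
  intro g
  apply W.tr_of_nilpotent
  apply W.ess_nil h
  rw [← Category.assoc, hf, Limits.zero_comp]

include W in
theorem ess_end (h : Ess i) (f : I ⟶ I) : ∃ r : ℚ, NumTriv (f - r • 𝟙 I) := by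
  obtain ⟨r, hr⟩ := W.ess_scalar h f
  refine ⟨r, W.ess_num h _ ?_⟩
  rw [Preadditive.comp_sub, hr, Linear.comp_smul, Category.comp_id, sub_self]

theorem ess_t (h : Ess i) (n : ℕ) : W.t I n = W.t I 0 := by
  have h1 : i ≫ W.Fp I n = i := by
    rw [W.Fp_nat, W.Fp_of_one W.F_unit, Category.id_comp]
  have h2 : i ≫ (W.Fp I n - 𝟙 I) = 0 := by
    rw [Preadditive.comp_sub, h1, Category.comp_id, sub_self]
  have h3 : tr I (W.Fp I n - 𝟙 I) = 0 := W.tr_of_nilpotent _ (W.ess_nil h _ h2)
  rw [tr_sub] at h3
  unfold t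
  have h4 : W.Fp I 0 = 𝟙 I := rfl
  rw [h4]
  congr 1
  exact sub_eq_zero.1 h3

theorem ess_mult (h : Ess i) : (W.mult I : ℚ) = W.t I 0 := W.mult_of_const (W.ess_t h)

theorem ess_ν (h : Ess i) (z : ℂ) : W.ν I z = if z = 1 then (W.mult I : ℤ) else 0 := by
  apply W.ν_unique I (fun z => if z = 1 then (W.mult I : ℤ) else 0) {1}
  · intro w hw
    rw [Finset.mem_singleton] at hw
    simp only [if_neg hw]
  · intro n
    rw [W.ess_t h n, ← W.ess_mult h]
    simp

theorem ess_tv (h : Ess i) : W.tv I = W.mult I := by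
  classical
  rw [W.tv_sum I (W.S I ∪ {1}) Finset.subset_union_left,
    Finset.sum_eq_single_of_mem (1 : ℂ) (by simp)]
  · rw [W.ess_ν h, if_pos rfl]
    rfl
  · intro z _ hz
    rw [W.ess_ν h, if_neg hz]
    rfl

theorem ess_pos (h : Ess i) : 1 ≤ W.mult I := by
  rw [← W.ess_tv h]
  apply W.tv_pos
  intro hz
  exact h.ne (hz.eq_of_tgt _ _)

end

end Frob

end

end Mot
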