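import Pool.Agent.MotE.Ess

/-!
# Compositions of numerically trivial morphisms between indecomposable objects (MP_6c4da4_ag)

The lemma of Harada and Sai: the composition of `2 ^ b - 1` numerically trivial morphisms between
indecomposable objects of rank at most `b` is zero.  By helper7.
-/

set_option autoImplicit false

open CategoryTheory MonoidalCategory BraidedCategory Limits Polynomial

universe v u

namespace Mot

noncomputable section

set_option linter.unusedSectionVars false

variable {C : Type u} [Category.{v} C] [Abelian C] [Linear ℚ C] [MonoidalCategory C]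
  [SymmetricCategory C] [MonoidalPreadditive C] [MonoidalLinear ℚ C] [RightRigidCategory C]

/-- `M` is indecomposable or zero -/
def Ind {C : Type u} [Category.{v} C] [Preadditive C] (M : C) : Prop :=
  ∀ e : M ⟶ M, e ≫ e = e → e = 0 ∨ e = 𝟙 M

namespace Frob

variable (W : Frob C)

lemma tv_zero {X : C} (h : IsZero X) : W.tv X = 0 := by
  unfold tv
  apply Finset.sum_eq_zero
  intro z hz
  have h1 : W.ν X z = 0 := by
    apply W.ν_unique X (fun _ => 0) ∅ (fun _ _ => rfl)
    intro n
    rw [W.t_zero_obj h]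
    simp
  rw [h1]
  rfl

lemma tv_le_of_epi {X Y : C} (f : X ⟶ Y) [hf : Epi f] : W.tv Y ≤ W.tv X := by
  have hS : (ShortComplex.mk (kernel.ι f) f (kernel.condition f)).ShortExact :=
    { exact := ShortComplex.exact_kernel f
      mono_f := inferInstanceAs (Mono (kernel.ι f))
      epi_g := hf }
  have h := W.tv_add hS
  change W.tv X = W.tv (kernel f) + W.tv Y at h
  omega

lemma iso_of_mono {X Y : C} (f : X ⟶ Y) [hf : Mono f] (h : W.tv Y ≤ W.tv X) : IsIso f := by
  have hS : (ShortComplex.mk f (cokernel.π f) (cokernel.condition f)).ShortExact :=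
    { exact := ShortComplex.exact_cokernel f
      mono_f := hf
      epi_g := inferInstanceAs (Epi (cokernel.π f)) }
  have h1 := W.tv_add hS
  change W.tv Y = W.tv X + W.tv (cokernel f) at h1
  have h2 : IsZero (cokernel f) := by
    by_contra hc
    have := W.tv_pos hc
    omega
  have h3 : Epi f := Abelian.epi_of_cokernel_π_eq_zero f (h2.eq_of_tgt _ _)
  exact isIso_of_mono_of_epi f

lemma iso_of_epi {X Y : C} (f : X ⟶ Y) [hf : Epi f] (h : W.tv X ≤ W.tv Y) : IsIso f := by
  have hS : (ShortComplex.mk (kernel.ι f) f (kernel.condition f)).ShortExact :=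
    { exact := ShortComplex.exact_kernel f
      mono_f := inferInstanceAs (Mono (kernel.ι f))
      epi_g := hf }
  have h1 := W.tv_add hS
  change W.tv X = W.tv (kernel f) + W.tv Y at h1
  have h2 : IsZero (kernel f) := by
    by_contra hc
    have := W.tv_pos hc
    omega
  have h3 : Mono f := Preadditive.mono_of_kernel_iso_zero h2.isoZero
  exact isIso_of_mono_of_epi f

lemma isZero_of_tv {X : C} (h : W.tv X = 0) : IsZero X := by
  by_contra hc
  have := W.tv_pos hc
  omega

/-- the rank of a morphism -/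
def rk {X Y : C} (f : X ⟶ Y) : ℕ := W.tv (image f)

lemma rk_eq {X I Y : C} (e : X ⟶ I) (m : I ⟶ Y) [Epi e] [Mono m] : W.rk (e ≫ m) = W.tv I := by
  have h1 := image.lift_fac (MonoFactorisation.mk I m e rfl)
  have h2 := image.fac_lift (MonoFactorisation.mk I m e rfl)
  set l : image (e ≫ m) ⟶ I := image.lift (MonoFactorisation.mk I m e rfl) with hl
  have h3 : Mono l := mono_of_mono_fac h1
  have h4 : Epi l := epi_of_epi_fac h2
  exact le_antisymm (W.tv_le_of_mono l) (W.tv_le_of_epi l)

lemma rk_le_src {X Y : C} (f : X ⟶ Y) : W.rk f ≤ W.tv X := W.tv_le_of_epi (factorThruImage f)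

lemma rk_le_tgt {X Y : C} (f : X ⟶ Y) : W.rk f ≤ W.tv Y := W.tv_le_of_mono (image.ι f)

lemma rk_comp_left {X Y Z : C} (f : X ⟶ Y) (g : Y ⟶ Z) : W.rk (f ≫ g) ≤ W.rk f := by
  have h1 : f ≫ g = (factorThruImage f ≫ factorThruImage (image.ι f ≫ g)) ≫
      image.ι (image.ι f ≫ g) := by
    rw [Category.assoc, image.fac, ← Category.assoc, image.fac]
  rw [h1, W.rk_eq]
  exact W.tv_le_of_epi (factorThruImage (image.ι f ≫ g))

lemma rk_comp_right {X Y Z : C} (f : X ⟶ Y) (g : Y ⟶ Z) : W.rk (f ≫ g) ≤ W.rk g := by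
  have h1 : f ≫ g = factorThruImage (f ≫ factorThruImage g) ≫
      (image.ι (f ≫ factorThruImage g) ≫ image.ι g) := by
    rw [← Category.assoc, image.fac, Category.assoc, image.fac]
  rw [h1, W.rk_eq]
  exact W.tv_le_of_mono (image.ι (f ≫ factorThruImage g))

lemma zero_of_rk {X Y : C} (f : X ⟶ Y) (h : W.rk f = 0) : f = 0 := by
  have h1 := W.isZero_of_tv h
  have h2 : factorThruImage f = 0 := h1.eq_of_tgt _ _
  calc f = factorThruImage f ≫ image.ι f := (image.fac f).symm
    _ = 0 := by rw [h2, Limits.zero_comp]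

/-- if `h`, `k` and `h ≫ k` have the same nonzero rank and the object in the middle is
indecomposable, then `h` is epi and `k` is mono -/
theorem key {A M B : C} {h : A ⟶ M} {k : M ⟶ B} (hM : Ind M) (h1 : W.rk h ≤ W.rk (h ≫ k))
    (h2 : W.rk k ≤ W.rk (h ≫ k)) (h0 : W.rk (h ≫ k) ≠ 0) : Epi h ∧ Mono k := by
  obtain ⟨θ, hθ⟩ : ∃ θ : image h ⟶ image k, θ = image.ι h ≫ factorThruImage k := ⟨_, rfl⟩
  have h3 : h ≫ k = (factorThruImage h ≫ factorThruImage θ) ≫ (image.ι θ ≫ image.ι k) := by
    rw [Category.assoc, ← Category.assoc (factorThruImage θ), image.fac, hθ, Category.assoc,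
      image.fac, ← Category.assoc, image.fac]
  have h4 : W.rk (h ≫ k) = W.tv (image θ) := by
    rw [h3, W.rk_eq]
  have h5 : IsIso (factorThruImage θ) := by
    apply W.iso_of_epi
    rw [← h4]
    exact h1
  have h6 : IsIso (image.ι θ) := by
    apply W.iso_of_mono
    rw [← h4]
    exact h2
  have h7 : IsIso θ := by
    rw [← image.fac θ]
    infer_instance
  obtain ⟨ρ, hρ⟩ : ∃ ρ : M ⟶ image h, ρ = factorThruImage k ≫ inv θ := ⟨_, rfl⟩
  have h8 : image.ι h ≫ ρ = 𝟙 _ := by
    rw [hρ, ← Category.assoc, ← hθ, IsIso.hom_inv_id]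
  have h9 : ρ ≫ θ = factorThruImage k := by
    rw [hρ, Category.assoc, IsIso.inv_hom_id, Category.comp_id]
  have h10 : (ρ ≫ image.ι h) ≫ (ρ ≫ image.ι h) = ρ ≫ image.ι h := by
    rw [Category.assoc, ← Category.assoc (image.ι h), h8, Category.id_comp]
  rcases hM _ h10 with h11 | h11
  · exfalso
    apply h0
    have h12 : 𝟙 (image h) = 0 := by
      calc 𝟙 (image h) = image.ι h ≫ (ρ ≫ image.ι h) ≫ ρ := by
            rw [Category.assoc, h8, Category.comp_id, h8]
        _ = 0 := by rw [h11, Limits.zero_comp, Limits.comp_zero]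
    have h13 : W.rk h = 0 := W.tv_zero ((IsZero.iff_id_eq_zero _).2 h12)
    have h14 := W.rk_comp_left h k
    omega
  · constructor
    · have h12 : Epi (image.ι h) := by
        have h13 : Epi (ρ ≫ image.ι h) := by
          rw [h11]
          infer_instance
        exact epi_of_epi ρ (image.ι h)
      have h13 : Epi (factorThruImage h ≫ image.ι h) := epi_comp _ _
      rwa [image.fac] at h13
    · have h12 : Mono ρ := by
        have h13 : Mono (ρ ≫ image.ι h) := by
          rw [h11]
          infer_instance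
        exact mono_of_mono ρ (image.ι h)
      have h13 : Mono (factorThruImage k) := by
        rw [← h9]
        exact mono_comp _ _
      have h14 : Mono (factorThruImage k ≫ image.ι k) := mono_comp _ _
      rwa [image.fac] at h14

include W in
lemma isZero_of_iso_num {X Y : C} (f : X ⟶ Y) (hf : NumTriv f) (h : IsIso f) : IsZero X := by
  apply W.isZero_of_t
  intro n
  have h1 := hf (inv f ≫ W.Fp X n)
  rw [← Category.assoc, IsIso.hom_inv_id, Category.id_comp] at h1
  unfold t
  rw [h1, W.val_zero]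

lemma rk_num {A B : C} (f : A ⟶ B) (hf : NumTriv f) (hA : ¬ IsZero A) (b : ℕ)
    (h1 : W.tv A ≤ b) (h2 : W.tv B ≤ b) : W.rk f + 1 ≤ b := by
  by_contra hc
  apply hA
  apply W.isZero_of_iso_num f hf
  have h3 : IsIso (factorThruImage f) := by
    apply W.iso_of_epi
    have : W.tv (image f) = W.rk f := rfl
    omega
  have h4 : IsIso (image.ι f) := by
    apply W.iso_of_mono
    have : W.tv (image f) = W.rk f := rfl
    omega
  rw [← image.fac f]
  infer_instance

end Frob

/-- `Path P k A B φ`: `φ` is a composition of `2 ^ (k + 1) - 1` numerically trivial morphisms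
between objects with the property `P` -/
inductive Path (P : C → Prop) : ℕ → (A B : C) → (A ⟶ B) → Prop
  | base (A B : C) (f : A ⟶ B) : P A → P B → NumTriv f → Path P 0 A B f
  | step (k : ℕ) (A M M' B : C) (h : A ⟶ M) (f : M ⟶ M') (g : M' ⟶ B) : Path P k A M h → P M →
      P M' → NumTriv f → Path P k M' B g → Path P (k + 1) A B (h ≫ f ≫ g)

namespace Frob

variable (W : Frob C)

/-- the lemma of Harada and Sai -/
theorem path_rk {P : C → Prop} {b : ℕ} (hP : ∀ M, P M → Ind M ∧ ¬ IsZero M ∧ W.tv M ≤ b) {k : ℕ}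
    {A B : C} {φ : A ⟶ B} (h : Path P k A B φ) : W.rk φ = 0 ∨ W.rk φ + (k + 1) ≤ b := by
  induction h with
  | base A B f hA hB hf =>
    right
    exact W.rk_num f hf (hP A hA).2.1 b (hP A hA).2.2 (hP B hB).2.2
  | step k A M M' B h f g _ hM hM' hf _ ih1 ih2 =>
    by_contra hc
    push Not at hc
    obtain ⟨h0, h1⟩ := hc
    have h2 : W.rk (h ≫ f ≫ g) ≤ W.rk h := W.rk_comp_left _ _
    have h3 : W.rk (h ≫ f ≫ g) ≤ W.rk (f ≫ g) := W.rk_comp_right _ _
    have h4 : W.rk (f ≫ g) ≤ W.rk g := W.rk_comp_right _ _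
    have h5 : W.rk (h ≫ f ≫ g) ≤ W.rk (h ≫ f) := by
      rw [← Category.assoc]
      exact W.rk_comp_left _ _
    have h6 : W.rk (h ≫ f) ≤ W.rk h := W.rk_comp_left _ _
    have h7 : W.rk h + (k + 1) ≤ b := by
      rcases ih1 with h8 | h8
      · omega
      · exact h8
    have h8 : W.rk g + (k + 1) ≤ b := by
      rcases ih2 with h9 | h9
      · omega
      · exact h9
    obtain ⟨-, h9⟩ := W.key (h := h) (k := f ≫ g) (hP M hM).1 (by omega) (by omega) h0
    have h0' : W.rk ((h ≫ f) ≫ g) ≠ 0 := by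
      rw [Category.assoc]
      exact h0
    obtain ⟨h10, -⟩ := W.key (h := h ≫ f) (k := g) (hP M' hM').1
      (by rw [Category.assoc]; omega) (by rw [Category.assoc]; omega) h0'
    have h11 : Mono f := mono_of_mono f g
    have h12 : Epi f := epi_of_epi h f
    exact (hP M hM).2.1 (W.isZero_of_iso_num f hf (isIso_of_mono_of_epi f))

theorem path_zero {P : C → Prop} {b : ℕ} (hP : ∀ M, P M → Ind M ∧ ¬ IsZero M ∧ W.tv M ≤ b)
    {k : ℕ} (hk : b ≤ k + 1) {A B : C} {φ : A ⟶ B} (h : Path P k A B φ) : φ = 0 := by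
  rcases W.path_rk hP h with h1 | h1
  · exact W.zero_of_rk φ h1
  · exact W.zero_of_rk φ (by omega)

end Frob

end

end Mot
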