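import Pool.Agent.MotE.Ess

/-!
# An essential extension of the unit of maximal rank is injective (MP_6c4da4_ag, by helper7)
-/

set_option autoImplicit false

open CategoryTheory MonoidalCategory BraidedCategory Limits Polynomial

universe v u

namespace Mot

noncomputable section

set_option linter.unusedSectionVars false

variable {C : Type u} [Category.{v} C] [Abelian C] [Linear ℚ C] [MonoidalCategory C]
  [SymmetricCategory C] [MonoidalPreadditive C] [MonoidalLinear ℚ C] [RightRigidCategory C]

theorem injective_of_splits {I : C} (h : ∀ (J : C) (j : I ⟶ J), Mono j → ∃ r : J ⟶ I, j ≫ r = 𝟙 I) :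
    Injective I := by
  refine ⟨fun {X Y} g f hf => ?_⟩
  obtain ⟨r, hr⟩ := h (pushout g f) (pushout.inl g f) inferInstance
  refine ⟨pushout.inr g f ≫ r, ?_⟩
  rw [← Category.assoc, ← pushout.condition, Category.assoc, hr, Category.comp_id]

namespace Frob

variable (W : Frob C)

include W in
/-- the identity of the unit is an essential extension -/
theorem ess_id : Ess (𝟙 (𝟙_ C)) := by
  have := W.simple_unit
  refine ⟨W.ne, fun U u hu h0 => ?_⟩
  have h1 : IsIso u := isIso_of_mono_of_nonzero h0
  exact ⟨inv u, IsIso.inv_hom_id u⟩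

/-- a mono out of an essential extension of maximal rank splits -/
theorem ess_split {I : C} {i : 𝟙_ C ⟶ I} (h : Ess i)
    (hmax : ∀ (J : C) (j : 𝟙_ C ⟶ J), Ess j → W.tv J ≤ W.tv I) (J : C) (j : I ⟶ J) (hj : Mono j) :
    ∃ r : J ⟶ I, j ≫ r = 𝟙 I := by
  classical
  have hmi := W.mono_unit i h.ne
  have hij : i ≫ j ≠ 0 := fun h0 => h.ne ((cancel_mono j).1 (h0.trans Limits.zero_comp.symm))
  -- a subobject of maximal rank which does not contain the unit
  obtain ⟨N, hN, hNmax⟩ : ∃ N : Subobject J, ¬ N.Factors (i ≫ j) ∧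
      ∀ P : Subobject J, ¬ P.Factors (i ≫ j) → W.tv (P : C) ≤ W.tv (N : C) := by
    have hex : ∃ N : Subobject J, ¬ N.Factors (i ≫ j) := by
      refine ⟨⊥, fun h0 => hij ?_⟩
      rw [Subobject.bot_factors_iff_zero] at h0
      exact h0
    have hb : ∀ P : Subobject J, W.tv (P : C) ≤ W.tv J := fun P => W.tv_le_of_mono P.arrow
    have hS : ({n | ∃ P : Subobject J, ¬ P.Factors (i ≫ j) ∧ W.tv (P : C) = n} : Set ℕ).Nonempty := by
      obtain ⟨N, hN⟩ := hex
      exact ⟨_, N, hN, rfl⟩
    have hB : BddAbove ({n | ∃ P : Subobject J, ¬ P.Factors (i ≫ j) ∧ W.tv (P : C) = n} : Set ℕ) := by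
      refine ⟨W.tv J, ?_⟩
      rintro n ⟨P, -, rfl⟩
      exact hb P
    obtain ⟨N, hN, hNe⟩ := Nat.sSup_mem hS hB
    refine ⟨N, hN, fun P hP => ?_⟩
    rw [hNe]
    exact le_csSup hB ⟨P, hP, rfl⟩
  obtain ⟨Q, q, hq, hqe⟩ : ∃ (Q : C) (q : J ⟶ Q), Epi q ∧
      ∀ (Z : C) (z : Z ⟶ J), N.Factors z ↔ z ≫ q = 0 := by
    refine ⟨cokernel N.arrow, cokernel.π N.arrow, inferInstance, fun Z z => ?_⟩
    constructor
    · intro hz
      rw [← Subobject.factorThru_arrow N z hz, Category.assoc, cokernel.condition, Limits.comp_zero]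
    · intro hz
      have h1 := ShortComplex.exact_cokernel N.arrow
      have h2 : h1.lift z hz ≫ N.arrow = z := h1.lift_f z hz
      rw [← h2]
      exact Subobject.factors_comp_arrow _
  have hne : i ≫ j ≫ q ≠ 0 := by
    intro h0
    apply hN
    rw [hqe, Category.assoc, h0]
  have hess : Ess (i ≫ j ≫ q) := by
    refine ⟨hne, fun U u hu h0 => ?_⟩
    -- the preimage of `U`
    have hlt : N < Subobject.mk (pullback.fst q u) := by
      refine lt_of_le_of_ne ?_ ?_
      · refine Subobject.le_mk_of_comm (pullback.lift N.arrow 0 ?_) ?_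
        · rw [Limits.zero_comp, ← hqe]
          exact Subobject.factors_self N
        · exact pullback.lift_fst _ _ _
      · intro he
        apply h0
        have h1 : N.Factors (pullback.fst q u) := by
          rw [he]
          exact Subobject.mk_factors_self _
        rw [hqe, pullback.condition] at h1
        rw [← cancel_epi (pullback.snd q u), h1, Limits.comp_zero]
    have hfac : (Subobject.mk (pullback.fst q u)).Factors (i ≫ j) := by
      by_contra hc
      have h1 := hNmax _ hc
      have h2 := W.tv_lt hlt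
      omega
    refine ⟨Subobject.factorThru _ _ hfac ≫ (Subobject.underlyingIso (pullback.fst q u)).hom ≫
      pullback.snd q u, ?_⟩
    rw [Category.assoc, Category.assoc, ← pullback.condition,
      Subobject.underlyingIso_hom_comp_eq_mk_assoc, ← Category.assoc, Subobject.factorThru_arrow,
      Category.assoc]
  have hm : Mono (j ≫ q) := by
    apply Preadditive.mono_of_kernel_zero
    by_contra h0
    obtain ⟨s, hs⟩ := h.ess _ (kernel.ι (j ≫ q)) inferInstance h0
    apply hne
    rw [← hs, Category.assoc, kernel.condition, Limits.comp_zero]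
  have hiso : IsIso (j ≫ q) := by
    have hS : (ShortComplex.mk (j ≫ q) (cokernel.π (j ≫ q)) (cokernel.condition _)).ShortExact :=
      { exact := ShortComplex.exact_cokernel _
        mono_f := hm
        epi_g := inferInstanceAs (Epi (cokernel.π (j ≫ q))) }
    have h1 := W.tv_add hS
    change W.tv Q = W.tv I + W.tv (cokernel (j ≫ q)) at h1
    have h2 := hmax Q _ hess
    have h3 : IsZero (cokernel (j ≫ q)) := by
      by_contra hc
      have := W.tv_pos hc
      omega
    have h4 : Epi (j ≫ q) := Abelian.epi_of_cokernel_π_eq_zero _ (h3.eq_of_tgt _ _)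
    exact isIso_of_mono_of_epi _
  refine ⟨q ≫ inv (j ≫ q), ?_⟩
  rw [← Category.assoc, IsIso.hom_inv_id]

include W in
/-- an essential extension of the unit of maximal rank makes the unit injective -/
theorem injective_unit {I : C} {i : 𝟙_ C ⟶ I} (h : Ess i)
    (hmax : ∀ (J : C) (j : 𝟙_ C ⟶ J), Ess j → W.tv J ≤ W.tv I) : Injective (𝟙_ C) := by
  have hI : Injective I := injective_of_splits (W.ess_split h hmax)
  have hT : Injective (I ⊗ Iᘁ) := by
    have hmon : (tensorRight I).PreservesMonomorphisms :=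
      ⟨fun f _ => inferInstanceAs (Mono (f ▷ I))⟩
    exact Adjunction.map_injective (tensorRightAdjunction I Iᘁ) _ hI
  have h0 : W.t I 0 ≠ 0 := by
    rw [← W.ess_mult h]
    have := W.ess_pos h
    positivity
  refine injective_of_splits fun J j hj => ?_
  obtain ⟨r, hr⟩ := hT.factors (η_ I Iᘁ) j
  refine ⟨(W.t I 0)⁻¹ • (r ≫ ev I Iᘁ), ?_⟩
  rw [Linear.comp_smul, ← Category.assoc, hr]
  have h1 : η_ I Iᘁ ≫ ev I Iᘁ = W.t I 0 • 𝟙 (𝟙_ C) := by
    have h2 : tr I (𝟙 I) = W.t I 0 • 𝟙 (𝟙_ C) := W.val_spec _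
    rw [← h2]
    unfold tr trP
    rw [id_whiskerRight, Category.id_comp]
  rw [h1, smul_smul, inv_mul_cancel₀ h0, one_smul]

/-- if the unit is injective, so is every object -/
theorem injective_all (h : Injective (𝟙_ C)) (X : C) : Injective X := by
  have h1 : Injective (𝟙_ C ⊗ X) := by
    let _ := exactPairing_swap X Xᘁ
    have hmon : (tensorRight Xᘁ).PreservesMonomorphisms :=
      ⟨fun f _ => inferInstanceAs (Mono (f ▷ Xᘁ))⟩
    exact Adjunction.map_injective (tensorRightAdjunction Xᘁ X) _ h
  exact Injective.of_iso (λ_ X) h1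

include W in
/-- if every object is injective, numerically trivial morphisms are zero -/
theorem zero_of_injective (h : ∀ X : C, Injective X) {X Y : C} (f : X ⟶ Y) (hf : NumTriv f) :
    f = 0 := by
  obtain ⟨r, hr⟩ := (h (image f)).factors (𝟙 (image f)) (image.ι f)
  have he : Epi (factorThruImage f) := inferInstance
  obtain ⟨σ, hσ⟩ : ∃ σ : image f ⟶ X, σ ≫ factorThruImage f = 𝟙 (image f) := by
    obtain ⟨ρ, hρ⟩ := (h (kernel (factorThruImage f))).factors (𝟙 _) (kernel.ι (factorThruImage f))
    have h1 : kernel.ι (factorThruImage f) ≫ (𝟙 X - ρ ≫ kernel.ι (factorThruImage f)) = 0 := by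
      rw [Preadditive.comp_sub, ← Category.assoc, hρ, Category.comp_id, Category.id_comp, sub_self]
    refine ⟨Abelian.epiDesc (factorThruImage f) _ h1, ?_⟩
    rw [← cancel_epi (factorThruImage f), ← Category.assoc, Abelian.comp_epiDesc,
      Preadditive.sub_comp, Category.assoc, kernel.condition, Limits.comp_zero, sub_zero,
      Category.id_comp, Category.comp_id]
  have hz : IsZero (image f) := by
    apply W.isZero_of_t
    intro n
    have h1 : tr X (f ≫ r ≫ W.Fp (image f) n ≫ σ) = 0 := hf _
    have h2 : f ≫ r ≫ W.Fp (image f) n ≫ σ = factorThruImage f ≫ (W.Fp (image f) n ≫ σ) := by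
      calc f ≫ r ≫ W.Fp (image f) n ≫ σ
          = (factorThruImage f ≫ image.ι f) ≫ r ≫ W.Fp (image f) n ≫ σ := by rw [image.fac]
        _ = factorThruImage f ≫ (W.Fp (image f) n ≫ σ) := by
          rw [Category.assoc, ← Category.assoc (image.ι f), hr, Category.id_comp]
    rw [h2, tr_comm, Category.assoc, hσ, Category.comp_id] at h1
    unfold t
    rw [h1, W.val_zero]
  have h3 : factorThruImage f = 0 := hz.eq_of_tgt _ _
  calc f = factorThruImage f ≫ image.ι f := (image.fac f).symm
    _ = 0 := by rw [h3, Limits.zero_comp]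

/-- Numerically trivial morphisms are zero, or the unit has essential extensions of arbitrarily
large rank. -/
theorem dichotomy : (∀ (X Y : C) (f : X ⟶ Y), NumTriv f → f = 0) ∨
    ∀ n : ℕ, ∃ (I : C) (i : 𝟙_ C ⟶ I), Ess i ∧ n ≤ W.mult I := by
  classical
  by_cases hb : ∃ K : ℕ, ∀ (I : C) (i : 𝟙_ C ⟶ I), Ess i → W.tv I ≤ K
  · left
    obtain ⟨K, hK⟩ := hb
    have hS : ({n | ∃ (I : C) (i : 𝟙_ C ⟶ I), Ess i ∧ W.tv I = n} : Set ℕ).Nonempty :=
      ⟨_, _, _, W.ess_id, rfl⟩
    have hB : BddAbove ({n | ∃ (I : C) (i : 𝟙_ C ⟶ I), Ess i ∧ W.tv I = n} : Set ℕ) := by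
      refine ⟨K, ?_⟩
      rintro n ⟨I, i, h, rfl⟩
      exact hK I i h
    obtain ⟨I, i, h, he⟩ := Nat.sSup_mem hS hB
    have hinj := W.injective_unit h (fun J j hj => by
      rw [he]
      exact le_csSup hB ⟨J, j, hj, rfl⟩)
    intro X Y f hf
    exact W.zero_of_injective (injective_all hinj) f hf
  · right
    intro n
    push Not at hb
    obtain ⟨I, i, h, hn⟩ := hb n
    refine ⟨I, i, h, ?_⟩
    rw [← W.ess_tv h]
    exact hn.le

end Frob

end

end Mot
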