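import Pool.Agent.MotE.HS

/-!
# The local dichotomy (MP_6c4da4_ag, by helper7)

A nonzero numerically trivial section of `Z` gives indecomposable direct summands of unbounded rank
in the tensor powers of `Z`.
-/

set_option autoImplicit false

open CategoryTheory MonoidalCategory BraidedCategory Limits Polynomial

universe v u

namespace Mot

noncomputable section

set_option linter.unusedSectionVars false

variable {C : Type u} [Category.{v} C] [Abelian C] [Linear ℚ C] [MonoidalCategory C]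
  [SymmetricCategory C] [MonoidalPreadditive C] [MonoidalLinear ℚ C] [RightRigidCategory C]

/-- `M` is a direct summand of `Y` -/
def Summ {C : Type u} [Category.{v} C] (M Y : C) : Prop := ∃ (i : M ⟶ Y) (p : Y ⟶ M), i ≫ p = 𝟙 M

lemma Summ.trans {M Y Z : C} (h : Summ M Y) (h' : Summ Y Z) : Summ M Z := by
  obtain ⟨i, p, h1⟩ := h
  obtain ⟨j, q, h2⟩ := h'
  refine ⟨i ≫ j, q ≫ p, ?_⟩
  rw [Category.assoc, ← Category.assoc j, h2, Category.id_comp, h1]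

/-- insertion of a section -/
def ins {Z : C} (f : 𝟙_ C ⟶ Z) (B : C) : B ⟶ B ⊗ Z := (λ_ B).inv ≫ f ▷ B ≫ (β_ Z B).hom

lemma mono_ins {Z : C} (f : 𝟙_ C ⟶ Z) [Mono f] (B : C) : Mono (ins f B) := by
  unfold ins
  infer_instance

lemma tr_ins {Z : C} (f : 𝟙_ C ⟶ Z) (B : C) (g : Z ⊗ B ⟶ B) :
    tr B ((λ_ B).inv ≫ f ▷ B ≫ g) =
      f ≫ (ρ_ Z).inv ≫ Z ◁ η_ B Bᘁ ≫ (α_ Z B Bᘁ).inv ≫ g ▷ Bᘁ ≫ ev B Bᘁ := by
  unfold tr trP
  simp only [comp_whiskerRight, Category.assoc]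
  have h1 : η_ B Bᘁ ≫ (λ_ B).inv ▷ Bᘁ ≫ f ▷ B ▷ Bᘁ =
      f ≫ (ρ_ Z).inv ≫ Z ◁ η_ B Bᘁ ≫ (α_ Z B Bᘁ).inv := by
    have h2 : f ▷ B ▷ Bᘁ = (α_ _ _ _).hom ≫ f ▷ (B ⊗ Bᘁ) ≫ (α_ _ _ _).inv := by simp
    have h3 : (λ_ B).inv ▷ Bᘁ ≫ (α_ (𝟙_ C) B Bᘁ).hom = (λ_ (B ⊗ Bᘁ)).inv := by simp
    rw [h2, ← Category.assoc ((λ_ B).inv ▷ Bᘁ), h3, ← Category.assoc (η_ B Bᘁ),
      leftUnitor_inv_naturality, Category.assoc, ← Category.assoc ((𝟙_ C) ◁ η_ B Bᘁ),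
      whisker_exchange]
    rw [Category.assoc, unitors_inv_equal, ← Category.assoc ((ρ_ (𝟙_ C)).inv),
      ← rightUnitor_inv_naturality, Category.assoc]
  have h4 := congrArg (fun x => x ≫ g ▷ Bᘁ ≫ ev B Bᘁ) h1
  simp only [Category.assoc] at h4
  exact h4

lemma num_ins {Z : C} (f : 𝟙_ C ⟶ Z) (hf : ∀ g : Z ⟶ 𝟙_ C, f ≫ g = 0) (B : C) :
    NumTriv (ins f B) := by
  intro g
  unfold ins
  rw [Category.assoc, Category.assoc, tr_ins]
  exact hf _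

lemma NumTriv.comp_left {A X Y : C} {f : X ⟶ Y} (hf : NumTriv f) (a : A ⟶ X) : NumTriv (a ≫ f) := by
  intro g
  rw [Category.assoc, Frob.tr_comm, Category.assoc]
  exact hf _

lemma NumTriv.comp_right {B X Y : C} {f : X ⟶ Y} (hf : NumTriv f) (b : Y ⟶ B) :
    NumTriv (f ≫ b) := by
  intro g
  rw [Category.assoc]
  exact hf _

/-- `Up f r A B φ`: `φ : A ⟶ B = A ⊗ Z ⊗ ⋯ ⊗ Z` inserts the section `f` `r` times -/
inductive Up {Z : C} (f : 𝟙_ C ⟶ Z) : ℕ → (A B : C) → (A ⟶ B) → Prop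
  | zero (A : C) : Up f 0 A A (𝟙 A)
  | succ (r : ℕ) (A B : C) (φ : A ⟶ B) : Up f r A B φ → Up f (r + 1) A (B ⊗ Z) (φ ≫ ins f B)

lemma up_split {Z : C} (f : 𝟙_ C ⟶ Z) (r s : ℕ) : ∀ (A B : C) (φ : A ⟶ B), Up f (r + s) A B φ →
    ∃ (M : C) (φ1 : A ⟶ M) (φ2 : M ⟶ B), Up f r A M φ1 ∧ Up f s M B φ2 ∧ φ = φ1 ≫ φ2 := by
  induction s with
  | zero =>
    intro A B φ h
    exact ⟨B, φ, 𝟙 B, h, Up.zero B, (Category.comp_id φ).symm⟩
  | succ s ih =>
    intro A B φ h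
    rw [← Nat.add_assoc] at h
    cases h with
    | succ _ _ B' φ' h' =>
      obtain ⟨M, φ1, φ2, h1, h2, rfl⟩ := ih A B' φ' h'
      exact ⟨M, φ1, φ2 ≫ ins f B', h1, Up.succ s M B' φ2 h2, Category.assoc _ _ _⟩

lemma up_T {Z : C} (f : 𝟙_ C ⟶ Z) (s r : ℕ) : ∀ (B : C) (φ : T Z s ⟶ B), Up f r (T Z s) B φ →
    B = T Z (s + r) := by
  induction r with
  | zero =>
    intro B φ h
    cases h
    rfl
  | succ r ih =>
    intro B φ h
    cases h with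
    | succ _ _ B' φ' h' =>
      rw [ih B' φ' h']
      rfl

lemma up_exists {Z : C} (f : 𝟙_ C ⟶ Z) (r : ℕ) (A : C) : ∃ (B : C) (φ : A ⟶ B), Up f r A B φ := by
  induction r with
  | zero => exact ⟨A, 𝟙 A, Up.zero A⟩
  | succ r ih =>
    obtain ⟨B, φ, h⟩ := ih
    exact ⟨_, _, Up.succ r A B φ h⟩

lemma up_mono {Z : C} (f : 𝟙_ C ⟶ Z) [Mono f] {r : ℕ} {A B : C} {φ : A ⟶ B} (h : Up f r A B φ) :
    Mono φ := by
  induction h with
  | zero A => infer_instance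
  | succ r A B φ _ ih =>
    have := mono_ins f B
    exact mono_comp _ _

lemma up_one {Z : C} (f : 𝟙_ C ⟶ Z) (hf : ∀ g : Z ⟶ 𝟙_ C, f ≫ g = 0) {A B : C} {φ : A ⟶ B}
    (h : Up f 1 A B φ) : NumTriv φ := by
  cases h with
  | succ _ _ B' φ' h' => exact (num_ins f hf B').comp_left φ'

/-- the morphisms killed by all sections -/
def Kil (A B : C) : AddSubgroup (A ⟶ B) where
  carrier := {φ | ∀ σ : 𝟙_ C ⟶ A, σ ≫ φ = 0}
  add_mem' {a b} ha hb σ := by rw [Preadditive.comp_add, ha σ, hb σ, add_zero]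
  zero_mem' σ := Limits.comp_zero
  neg_mem' {a} ha σ := by rw [Preadditive.comp_neg, ha σ, neg_zero]

lemma Kil.comp_right {A M B : C} {φ : A ⟶ M} (h : φ ∈ Kil A M) (b : M ⟶ B) : φ ≫ b ∈ Kil A B := by
  intro σ
  rw [← Category.assoc, h σ, Limits.zero_comp]

lemma Kil.comp_left {A M B : C} {φ : M ⟶ B} (h : φ ∈ Kil M B) (a : A ⟶ M) : a ≫ φ ∈ Kil A B := by
  intro σ
  rw [← Category.assoc]
  exact h _

lemma kil_of_no {A B : C} (φ : A ⟶ B) (h : ∀ σ : 𝟙_ C ⟶ B, σ = 0) : φ ∈ Kil A B := fun _ => h _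

/-- sums of paths, modulo the morphisms killed by all sections -/
def PS (P : C → Prop) (k : ℕ) (A B : C) : AddSubgroup (A ⟶ B) :=
  AddSubgroup.closure {φ | Path P k A B φ} ⊔ Kil A B

lemma ps_step (P : C → Prop) (k : ℕ) {A M M' B : C} (h : A ⟶ M) (f : M ⟶ M') (g : M' ⟶ B)
    (hh : h ∈ PS P k A M) (hM : P M) (hM' : P M') (hf : NumTriv f) (hg : g ∈ PS P k M' B) :
    h ≫ f ≫ g ∈ PS P (k + 1) A B := by
  unfold PS at hh hg
  rw [AddSubgroup.mem_sup] at hh hg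
  obtain ⟨x, hx, κ, hκ, rfl⟩ := hh
  obtain ⟨y, hy, κ', hκ', rfl⟩ := hg
  have h1 : κ ≫ f ≫ (y + κ') ∈ PS P (k + 1) A B :=
    AddSubgroup.mem_sup_right (Kil.comp_right hκ _)
  have h2 : x ≫ f ≫ κ' ∈ PS P (k + 1) A B := by
    apply AddSubgroup.mem_sup_right
    rw [← Category.assoc]
    exact Kil.comp_left hκ' _
  have h3 : x ≫ f ≫ y ∈ PS P (k + 1) A B := by
    apply AddSubgroup.mem_sup_left
    refine AddSubgroup.closure_induction (p := fun x _ => x ≫ f ≫ y ∈ AddSubgroup.closure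
      {φ | Path P (k + 1) A B φ}) ?_ ?_ ?_ ?_ hx
    · intro x hx
      refine AddSubgroup.closure_induction (p := fun y _ => x ≫ f ≫ y ∈ AddSubgroup.closure
        {φ | Path P (k + 1) A B φ}) ?_ ?_ ?_ ?_ hy
      · intro y hy
        exact AddSubgroup.subset_closure (Path.step k A M M' B x f y hx hM hM' hf hy)
      · rw [Limits.comp_zero, Limits.comp_zero]
        exact AddSubgroup.zero_mem _
      · intro a b _ _ ha hb
        rw [Preadditive.comp_add, Preadditive.comp_add]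
        exact AddSubgroup.add_mem _ ha hb
      · intro a _ ha
        rw [Preadditive.comp_neg, Preadditive.comp_neg]
        exact AddSubgroup.neg_mem _ ha
    · rw [Limits.zero_comp]
      exact AddSubgroup.zero_mem _
    · intro a b _ _ ha hb
      rw [Preadditive.add_comp]
      exact AddSubgroup.add_mem _ ha hb
    · intro a _ ha
      rw [Preadditive.neg_comp]
      exact AddSubgroup.neg_mem _ ha
  have h4 : (x + κ) ≫ f ≫ (y + κ') = κ ≫ f ≫ (y + κ') + (x ≫ f ≫ κ' + x ≫ f ≫ y) := by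
    simp only [Preadditive.add_comp, Preadditive.comp_add]
    abel
  rw [h4]
  exact AddSubgroup.add_mem _ h1 (AddSubgroup.add_mem _ h2 h3)

namespace Frob

variable (W : Frob C)

include W in
/-- a property of a composition through `Y` can be checked on the indecomposable direct summands of
`Y` -/
theorem decomp_mem (m : ℕ) : ∀ (Y : C), W.tv Y ≤ m → ∀ {A B : C} (G : AddSubgroup (A ⟶ B))
    (α : A ⟶ Y) (β : Y ⟶ B), (∀ (M : C) (i : M ⟶ Y) (p : Y ⟶ M), i ≫ p = 𝟙 M → Ind M →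
      ¬ IsZero M → α ≫ p ≫ i ≫ β ∈ G) → α ≫ β ∈ G := by
  induction m with
  | zero =>
    intro Y hY A B G α β _
    have h1 := W.isZero_of_tv (Nat.le_zero.1 hY)
    rw [h1.eq_of_tgt α 0, Limits.zero_comp]
    exact G.zero_mem
  | succ m ih =>
    intro Y hY A B G α β h
    by_cases h0 : IsZero Y
    · rw [h0.eq_of_tgt α 0, Limits.zero_comp]
      exact G.zero_mem
    by_cases hI : Ind Y
    · have h1 := h Y (𝟙 Y) (𝟙 Y) (Category.comp_id _) hI h0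
      rw [Category.id_comp, Category.id_comp] at h1
      exact h1
    · unfold Ind at hI
      push Not at hI
      obtain ⟨e, he, he0, he1⟩ := hI
      have he' : (𝟙 Y - e) ≫ (𝟙 Y - e) = 𝟙 Y - e := by
        rw [Preadditive.sub_comp, Preadditive.comp_sub, Preadditive.comp_sub, he, Category.id_comp,
          Category.id_comp, Category.comp_id, sub_self, sub_zero]
      obtain ⟨Y1, i1, p1, h1, h2⟩ := IsIdempotentComplete.idempotents_split Y e he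
      obtain ⟨Y2, i2, p2, h3, h4⟩ := IsIdempotentComplete.idempotents_split Y _ he'
      have key : ∀ (Y' : C) (i : Y' ⟶ Y) (p : Y ⟶ Y'), i ≫ p = 𝟙 Y' → p ≫ i ≠ 𝟙 Y →
          α ≫ p ≫ i ≫ β ∈ G := by
        intro Y' i p h5 h6
        have hm : Mono i := mono_of_mono_fac h5
        have h7 : W.tv Y' ≤ m := by
          by_contra hc
          have h8 : IsIso i := W.iso_of_mono i (by omega)
          apply h6
          rw [← cancel_epi i, ← Category.assoc, h5, Category.id_comp, Category.comp_id]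
        have h8 := ih Y' h7 G (α ≫ p) (i ≫ β) (fun M i' p' h9 h10 h11 => by
          have h12 := h M (i' ≫ i) (p ≫ p') (by
            rw [Category.assoc, ← Category.assoc i, h5, Category.id_comp, h9]) h10 h11
          simp only [Category.assoc] at h12 ⊢
          exact h12)
        simp only [Category.assoc] at h8 ⊢
        exact h8
      have h5 : p1 ≫ i1 + p2 ≫ i2 = 𝟙 Y := by
        rw [h2, h4]
        abel
      have h6 : α ≫ β = α ≫ p1 ≫ i1 ≫ β + α ≫ p2 ≫ i2 ≫ β := by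
        calc α ≫ β = α ≫ (p1 ≫ i1 + p2 ≫ i2) ≫ β := by rw [h5, Category.id_comp]
          _ = _ := by
            rw [Preadditive.add_comp, Preadditive.comp_add, Category.assoc, Category.assoc]
      rw [h6]
      refine G.add_mem (key Y1 i1 p1 h1 ?_) (key Y2 i2 p2 h3 ?_)
      · rw [h2]
        exact he1
      · rw [h4]
        intro h7
        apply he0
        have h8 : e = 𝟙 Y - (𝟙 Y - e) := by abel
        rw [h8, h7, sub_self]

/-- the main step -/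
theorem main_step {Z : C} (f : 𝟙_ C ⟶ Z) (hf : ∀ g : Z ⟶ 𝟙_ C, f ≫ g = 0) (b R : ℕ)
    (hb : ∀ (M : C) (k : ℕ), k < R → Summ M (T Z k) → Ind M → (∃ σ : 𝟙_ C ⟶ M, σ ≠ 0) →
      W.tv M ≤ b) (k : ℕ) :
    ∀ (s : ℕ), s + (2 ^ (k + 1) - 1) < R → ∀ (A B Y : C) (α : A ⟶ T Z s) (φ : T Z s ⟶ Y)
      (β : Y ⟶ B), (Ind A ∧ ¬ IsZero A ∧ W.tv A ≤ b) → (Ind B ∧ ¬ IsZero B ∧ W.tv B ≤ b) →
      Up f (2 ^ (k + 1) - 1) (T Z s) Y φ →
      α ≫ φ ≫ β ∈ PS (fun M => Ind M ∧ ¬ IsZero M ∧ W.tv M ≤ b) k A B := by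
  induction k with
  | zero =>
    intro s hs A B Y α φ β hA hB hφ
    apply AddSubgroup.mem_sup_left
    apply AddSubgroup.subset_closure
    refine Path.base A B _ hA hB ?_
    have h1 : NumTriv φ := up_one f hf hφ
    exact (h1.comp_right β).comp_left α
  | succ k ih =>
    intro s hs A B Y α φ β hA hB hφ
    have h2 : 2 ^ (k + 1 + 1) - 1 = (2 ^ (k + 1) - 1) + (1 + (2 ^ (k + 1) - 1)) := by
      have h3 : 1 ≤ 2 ^ (k + 1) := Nat.one_le_two_pow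
      have h4 : 2 ^ (k + 1 + 1) = 2 * 2 ^ (k + 1) := by ring
      omega
    rw [h2] at hφ hs
    obtain ⟨Y1, φ1, φ', hφ1, hφ', rfl⟩ := up_split f _ _ _ _ _ hφ
    obtain ⟨Y2, φ2, φ3, hφ2, hφ3, rfl⟩ := up_split f _ _ _ _ _ hφ'
    have hY1 := up_T f _ _ _ _ hφ1
    subst hY1
    have hY2 := up_T f _ _ _ _ hφ2
    subst hY2
    have hn2 : NumTriv φ2 := up_one f hf hφ2
    have e1 : α ≫ (φ1 ≫ φ2 ≫ φ3) ≫ β = (α ≫ φ1) ≫ (φ2 ≫ φ3 ≫ β) := by
      simp only [Category.assoc]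
    rw [e1]
    refine W.decomp_mem _ _ le_rfl _ _ _ ?_
    intro M i p hip hM hM0
    by_cases hσ : ∃ σ : 𝟙_ C ⟶ M, σ ≠ 0
    swap
    · push Not at hσ
      apply AddSubgroup.mem_sup_right
      rw [← Category.assoc]
      exact Kil.comp_right (kil_of_no _ hσ) _
    have hMb : W.tv M ≤ b := hb M _ (by omega) ⟨i, p, hip⟩ hM hσ
    have e2 : (α ≫ φ1) ≫ p ≫ i ≫ φ2 ≫ φ3 ≫ β = ((α ≫ φ1 ≫ p) ≫ i ≫ φ2) ≫ (φ3 ≫ β) := by
      simp only [Category.assoc]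
    rw [e2]
    refine W.decomp_mem _ _ le_rfl _ _ _ ?_
    intro M' i' p' hip' hM' hM0'
    by_cases hσ' : ∃ σ : 𝟙_ C ⟶ M', σ ≠ 0
    swap
    · push Not at hσ'
      apply AddSubgroup.mem_sup_right
      rw [← Category.assoc]
      exact Kil.comp_right (kil_of_no _ hσ') _
    have hMb' : W.tv M' ≤ b := hb M' _ (by omega) ⟨i', p', hip'⟩ hM' hσ'
    have e3 : ((α ≫ φ1 ≫ p) ≫ i ≫ φ2) ≫ p' ≫ i' ≫ φ3 ≫ β =
        (α ≫ φ1 ≫ p) ≫ (i ≫ φ2 ≫ p') ≫ (i' ≫ φ3 ≫ β) := by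
      simp only [Category.assoc]
    rw [e3]
    refine ps_step _ k _ _ _ ?_ ⟨hM, hM0, hMb⟩ ⟨hM', hM0', hMb'⟩ ?_ ?_
    · exact ih s (by omega) A M _ α φ1 p hA ⟨hM, hM0, hMb⟩ hφ1
    · exact (hn2.comp_right p').comp_left i
    · exact ih _ (by omega) M' B _ i' φ3 β ⟨hM', hM0', hMb'⟩ hB hφ3

include W in
lemma ind_unit : Ind (𝟙_ C) := by
  intro e he
  obtain ⟨r, rfl⟩ := W.scalar e
  rw [Linear.smul_comp, Linear.comp_smul, smul_smul, Category.comp_id] at he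
  have h1 : r * r = r := W.smul_inj he
  have h2 : r * (r - 1) = 0 := by linarith
  rcases mul_eq_zero.1 h2 with h3 | h3
  · left
    rw [h3, zero_smul]
  · right
    have h4 : r = 1 := by linarith
    rw [h4, one_smul]

lemma tv_unit : W.tv (𝟙_ C) = 1 := by
  classical
  have h1 : ∀ z, W.ν (𝟙_ C) z = if z = 1 then 1 else 0 := by
    intro z
    apply W.ν_unique (𝟙_ C) (fun z => if z = 1 then 1 else 0) {1}
    · intro w hw
      rw [Finset.mem_singleton] at hw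
      simp only [if_neg hw]
    · intro n
      rw [W.t_unit]
      simp
  rw [W.tv_sum (𝟙_ C) (W.S (𝟙_ C) ∪ {1}) Finset.subset_union_left,
    Finset.sum_eq_single_of_mem (1 : ℂ) (by simp)]
  · rw [h1, if_pos rfl]
    rfl
  · intro z _ hz
    rw [h1, if_neg hz]
    rfl

/-- The local dichotomy: a nonzero numerically trivial section `f` of `Z` gives, for every `b`, an
indecomposable direct summand of rank greater than `b` with a nonzero section in some tensor power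
`Z ^ k`, `k < 2 ^ b`. -/
theorem local_dichotomy {Z : C} (f : 𝟙_ C ⟶ Z) (hf : ∀ g : Z ⟶ 𝟙_ C, f ≫ g = 0) (hf0 : f ≠ 0)
    (b : ℕ) : ∃ (M : C) (k : ℕ), k < 2 ^ b ∧ Summ M (T Z k) ∧ Ind M ∧ (∃ σ : 𝟙_ C ⟶ M, σ ≠ 0) ∧
      b < W.tv M := by
  by_contra hc
  push Not at hc
  have h1z : ¬ IsZero (𝟙_ C) := fun h => W.ne (h.eq_of_src _ _)
  have hb1 : 1 ≤ b := by
    by_contra h0
    have h2 : b = 0 := by omega
    have h3 := hc (𝟙_ C) 0 (by rw [h2]; norm_num) ⟨𝟙 _, 𝟙 _, Category.comp_id _⟩ W.ind_unit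
      ⟨𝟙 _, W.ne⟩
    rw [W.tv_unit] at h3
    omega
  obtain ⟨k, rfl⟩ : ∃ k, b = k + 1 := ⟨b - 1, by omega⟩
  obtain ⟨Y, φ, hφ⟩ := up_exists f (2 ^ (k + 1) - 1) (T Z 0)
  have hmono : Mono f := W.mono_unit f hf0
  have hφm : Mono φ := up_mono f hφ
  have hYT := up_T f _ _ _ _ hφ
  have h1u : Ind (𝟙_ C) ∧ ¬ IsZero (𝟙_ C) ∧ W.tv (𝟙_ C) ≤ k + 1 :=
    ⟨W.ind_unit, h1z, by rw [W.tv_unit]; omega⟩
  have hpow : 1 ≤ 2 ^ (k + 1) := Nat.one_le_two_pow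
  subst hYT
  have hz : ((𝟙 (𝟙_ C) : 𝟙_ C ⟶ T Z 0) ≫ φ) ≫ 𝟙 (T Z (0 + (2 ^ (k + 1) - 1))) = 0 := by
    have h5 : ((𝟙 (𝟙_ C) : 𝟙_ C ⟶ T Z 0) ≫ φ) ≫ 𝟙 (T Z (0 + (2 ^ (k + 1) - 1))) ∈
        (⊥ : AddSubgroup (𝟙_ C ⟶ T Z (0 + (2 ^ (k + 1) - 1)))) := by
      refine W.decomp_mem _ _ le_rfl _ _ _ ?_
      intro M i p hip hM hM0
      rw [AddSubgroup.mem_bot]
      by_cases hσ : ∃ σ : 𝟙_ C ⟶ M, σ ≠ 0
      · have hMb : W.tv M ≤ k + 1 :=
          hc M (0 + (2 ^ (k + 1) - 1)) (by omega) ⟨i, p, hip⟩ hM hσ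
        have h6 := W.main_step f hf (k + 1) (2 ^ (k + 1)) (fun M k' hk' hs hI hσ =>
          hc M k' hk' hs hI hσ) k 0 (by omega) (𝟙_ C) M _ (𝟙 (𝟙_ C)) φ p h1u
          ⟨hM, hM0, hMb⟩ hφ
        unfold PS at h6
        rw [AddSubgroup.mem_sup] at h6
        obtain ⟨x, hx, κ, hκ, he⟩ := h6
        have h7 : κ = 0 := by
          have h8 := hκ (𝟙 _)
          rwa [Category.id_comp] at h8
        have h8 : x = 0 := by
          have h9 : AddSubgroup.closure {φ | Path (fun M => Ind M ∧ ¬ IsZero M ∧ W.tv M ≤ k + 1) k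
              (𝟙_ C) M φ} ≤ ⊥ := by
            rw [AddSubgroup.closure_le]
            intro ψ hψ
            exact W.path_zero (fun M h => h) le_rfl hψ
          exact (AddSubgroup.mem_bot).1 (h9 hx)
        rw [h7, h8, add_zero] at he
        have h9 : ((𝟙 (𝟙_ C) : 𝟙_ C ⟶ T Z 0) ≫ φ) ≫ p ≫ i ≫ 𝟙 _ =
            ((𝟙 (𝟙_ C) : 𝟙_ C ⟶ T Z 0) ≫ φ ≫ p) ≫ i := by
          simp only [Category.assoc, Category.comp_id]
        have h10 : ((𝟙 (𝟙_ C) : 𝟙_ C ⟶ T Z 0) ≫ φ ≫ p) = 0 := he.symm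
        rw [h9, h10, Limits.zero_comp]
      · push Not at hσ
        rw [← Category.assoc, hσ (((𝟙 (𝟙_ C) : 𝟙_ C ⟶ T Z 0) ≫ φ) ≫ p), Limits.zero_comp]
    rwa [AddSubgroup.mem_bot] at h5
  rw [Category.comp_id] at hz
  apply W.ne
  have h6 : (𝟙 (𝟙_ C) : 𝟙_ C ⟶ T Z 0) ≫ φ = (0 : 𝟙_ C ⟶ T Z 0) ≫ φ := by
    rw [hz, Limits.zero_comp]
  exact (cancel_mono φ).1 h6

end Frob

end

end Mot
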