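import Pool.Agent.MotE.Loc
import Pool.Agent.Mot84.Gen

/-!
# Indecomposable objects with a section (MP_6c4da4_ag, by helper7)

If `M` is indecomposable and has a nonzero section, then `1` is the only Frobenius eigenvalue of `M`,
and the endomorphisms of `M` modulo the numerically trivial ones are a vector space of dimension at
most the multiplicity of this eigenvalue.
-/

set_option autoImplicit false

open CategoryTheory MonoidalCategory BraidedCategory Limits Polynomial

universe v u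

namespace Mot

noncomputable section

set_option linter.unusedSectionVars false

variable {C : Type u} [Category.{v} C] [Abelian C] [Linear ℚ C] [MonoidalCategory C]
  [SymmetricCategory C] [MonoidalPreadditive C] [MonoidalLinear ℚ C] [RightRigidCategory C]

namespace Frob

variable (W : Frob C)

section

variable {M : C} {σ : 𝟙_ C ⟶ M}

include W in
/-- an endomorphism of an indecomposable object is nilpotent or an isomorphism -/
theorem ind_cases (hM : Ind M) (f : End M) : IsNilpotent f ∨ IsIso (show M ⟶ M from f) := by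
  have hfin : Module.Finite ℚ (End M) := W.finite_hom M M
  by_cases hn : IsNilpotent f
  · exact Or.inl hn
  · right
    obtain ⟨g, h1, h2⟩ := exIdem' f hn
    obtain ⟨e, he⟩ : ∃ e : M ⟶ M, e = (f * aeval f g : End M) := ⟨_, rfl⟩
    have h3 : e ≫ e = e := by
      rw [he]
      exact h1
    have h4 : e = 𝟙 M := by
      rcases hM e h3 with h5 | h5
      · exfalso
        apply h2
        change _ = (0 : M ⟶ M)
        rw [← he, h5]
      · exact h5
    have h5 : (f * aeval f g : End M) = aeval f g * f := by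
      have h6 : aeval f (X * g) = aeval f (g * X) := by rw [mul_comm]
      rw [map_mul, map_mul, aeval_X] at h6
      exact h6
    have h6 : e = (aeval f g : End M) ≫ (show M ⟶ M from f) := he
    have h7 : e = (show M ⟶ M from f) ≫ (aeval f g : End M) := by
      rw [he, h5]
      rfl
    exact ⟨(aeval f g : End M), by rw [← h7, h4], by rw [← h6, h4]⟩

include W in
theorem loc_nil (hM : Ind M) (hσ : σ ≠ 0) (f : End M) (hf : σ ≫ (f : M ⟶ M) = 0) :
    IsNilpotent f := by
  rcases W.ind_cases hM f with h | h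
  · exact h
  · exfalso
    apply hσ
    rw [← cancel_mono (show M ⟶ M from f), Limits.zero_comp]
    exact hf

include W in
theorem loc_num (hM : Ind M) (hσ : σ ≠ 0) (f : M ⟶ M) (hf : σ ≫ f = 0) : NumTriv f := by
  intro g
  apply W.tr_of_nilpotent
  apply W.loc_nil hM hσ
  rw [← Category.assoc, hf, Limits.zero_comp]

theorem loc_t (hM : Ind M) (hσ : σ ≠ 0) (n : ℕ) : W.t M n = W.t M 0 := by
  have h1 : σ ≫ W.Fp M n = σ := by
    rw [W.Fp_nat, W.Fp_of_one W.F_unit, Category.id_comp]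
  have h2 : σ ≫ (W.Fp M n - 𝟙 M) = 0 := by
    rw [Preadditive.comp_sub, h1, Category.comp_id, sub_self]
  have h3 : tr M (W.Fp M n - 𝟙 M) = 0 := W.tr_of_nilpotent _ (W.loc_nil hM hσ _ h2)
  rw [tr_sub] at h3
  unfold t
  have h4 : W.Fp M 0 = 𝟙 M := rfl
  rw [h4]
  congr 1
  exact sub_eq_zero.1 h3

theorem loc_mult (hM : Ind M) (hσ : σ ≠ 0) : (W.mult M : ℚ) = W.t M 0 :=
  W.mult_of_const (W.loc_t hM hσ)

theorem loc_ν (hM : Ind M) (hσ : σ ≠ 0) (z : ℂ) :
    W.ν M z = if z = 1 then (W.mult M : ℤ) else 0 := by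
  apply W.ν_unique M (fun z => if z = 1 then (W.mult M : ℤ) else 0) {1}
  · intro w hw
    rw [Finset.mem_singleton] at hw
    simp only [if_neg hw]
  · intro n
    rw [W.loc_t hM hσ n, ← W.loc_mult hM hσ]
    simp

theorem loc_tv (hM : Ind M) (hσ : σ ≠ 0) : W.tv M = W.mult M := by
  classical
  rw [W.tv_sum M (W.S M ∪ {1}) Finset.subset_union_left,
    Finset.sum_eq_single_of_mem (1 : ℂ) (by simp)]
  · rw [W.loc_ν hM hσ, if_pos rfl]
    rfl
  · intro z _ hz
    rw [W.loc_ν hM hσ, if_neg hz]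
    rfl

theorem loc_rank (hM : Ind M) (hσ : σ ≠ 0) (N : Submodule ℚ (M ⟶ M))
    (hN : ∀ f : M ⟶ M, NumTriv f → f ∈ N) : Module.rank ℚ ((M ⟶ M) ⧸ N) ≤ W.mult M := by
  obtain ⟨φ, hφ⟩ : ∃ φ : (M ⟶ M) →ₗ[ℚ] (𝟙_ C ⟶ M), ∀ f, φ f = σ ≫ f :=
    ⟨Linear.leftComp ℚ M σ, fun f => rfl⟩
  have h1 : LinearMap.ker φ ≤ N := by
    intro f hf
    rw [LinearMap.mem_ker, hφ] at hf
    exact hN f (W.loc_num hM hσ f hf)
  have h2 : Module.rank ℚ ((M ⟶ M) ⧸ N) ≤ Module.rank ℚ ((M ⟶ M) ⧸ LinearMap.ker φ) := by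
    refine LinearMap.rank_le_of_surjective (Submodule.mapQ (LinearMap.ker φ) N LinearMap.id h1) ?_
    intro y
    obtain ⟨x, rfl⟩ := N.mkQ_surjective y
    exact ⟨(LinearMap.ker φ).mkQ x, rfl⟩
  have h3 : Module.rank ℚ ((M ⟶ M) ⧸ LinearMap.ker φ) ≤ Module.rank ℚ (𝟙_ C ⟶ M) := by
    rw [φ.quotKerEquivRange.rank_eq]
    exact Submodule.rank_le _
  exact (h2.trans h3).trans (W.rank_le M)

end

/-- A nonzero numerically trivial morphism `f : X ⟶ Y` gives indecomposable direct summands `M` of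
the tensor powers of `Y ⊗ X'` of unbounded rank, with the only Frobenius eigenvalue `1`, whose
endomorphisms modulo the numerically trivial ones have dimension at most the rank of `M`. -/
theorem big_summand {X Y : C} (f : X ⟶ Y) (hf : NumTriv f) (hf0 : f ≠ 0) (b : ℕ) :
    ∃ (M : C) (k : ℕ), k < 2 ^ b ∧ Summ M (T (Y ⊗ Xᘁ) k) ∧ Ind M ∧ b < W.mult M ∧
      (∀ z : ℂ, z ≠ 1 → W.ν M z = 0) ∧ ∀ N : Submodule ℚ (M ⟶ M),
        (∀ f : M ⟶ M, NumTriv f → f ∈ N) → Module.rank ℚ ((M ⟶ M) ⧸ N) ≤ W.mult M := by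
  have h1 : ∀ g : Y ⊗ Xᘁ ⟶ 𝟙_ C, nm f ≫ g = 0 := by
    intro g
    obtain ⟨h, rfl⟩ := ev_surj g
    rw [nm_ev]
    exact hf h
  have h2 : nm f ≠ 0 := by
    intro h3
    apply hf0
    apply nm_inj
    rw [h3]
    exact (map_zero (nmL X Y)).symm
  obtain ⟨M, k, hk, hs, hI, ⟨σ, hσ⟩, hb⟩ := W.local_dichotomy (nm f) h1 h2 b
  refine ⟨M, k, hk, hs, hI, ?_, ?_, ?_⟩
  · rw [← W.loc_tv hI hσ]
    exact hb
  · intro z hz
    rw [W.loc_ν hI hσ, if_neg hz]
  · intro N hN
    exact W.loc_rank hI hσ N hN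

end Frob

end

end Mot
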